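import Mathlib

set_option autoImplicit false

/-! Rational self-maps of projective space in homogeneous coordinates, and the degrees of their
iterates. -/

namespace Pool.Agent.N890.DG

open MvPolynomial

variable {K : Type*} [Field K] {N : ℕ}

/-- `F = [F 0 : ⋯ : F N]` are the homogeneous coordinates of a rational self-map of `ℙ^N` of
degree `d`: forms of one common degree `d` without nonconstant common factor. -/
structure IsRationalMap (F : Fin (N + 1) → MvPolynomial (Fin (N + 1)) K) (d : ℕ) : Prop where
  homogeneous : ∀ i, (F i).IsHomogeneous d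
  coprime : ∀ G : MvPolynomial (Fin (N + 1)) K, (∀ i, G ∣ F i) → IsUnit G

/-- The map is dominant: its coordinates satisfy no nontrivial polynomial relation. -/
def IsDominant (F : Fin (N + 1) → MvPolynomial (Fin (N + 1)) K) : Prop :=
  AlgebraicIndependent K F

/-- The map is birational: for some tuple `G` of polynomials, substituting `F` into `G` gives the
tuple of the variables times a common nonzero factor. -/
def IsBirational (F : Fin (N + 1) → MvPolynomial (Fin (N + 1)) K) : Prop :=
  ∃ (d : ℕ) (G : Fin (N + 1) → MvPolynomial (Fin (N + 1)) K) (H : MvPolynomial (Fin (N + 1)) K),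
    IsRationalMap G d ∧ H ≠ 0 ∧ ∀ i, bind₁ F (G i) = H * X i

/-- The `n`-fold composite `F ∘ ⋯ ∘ F` obtained by substitution, common factors kept. -/
noncomputable def substIter (F : Fin (N + 1) → MvPolynomial (Fin (N + 1)) K) :
    ℕ → Fin (N + 1) → MvPolynomial (Fin (N + 1)) K
  | 0 => X
  | n + 1 => fun i => bind₁ (substIter F n) (F i)

/-- `e` is the degree of the `n`-th iterate of `F`: the `n`-fold substitution is a common nonzero
factor `H` times the coordinates `G` of a rational self-map of degree `e`. -/
def IsIterateDegree (F : Fin (N + 1) → MvPolynomial (Fin (N + 1)) K) (n e : ℕ) : Prop :=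
  ∃ (H : MvPolynomial (Fin (N + 1)) K) (G : Fin (N + 1) → MvPolynomial (Fin (N + 1)) K),
    H ≠ 0 ∧ IsRationalMap G e ∧ ∀ i, substIter F n i = H * G i

/-- `a ≍ b`: there are positive constants with `c₁ a n ≤ b n ≤ c₂ a n` for all large `n`. -/
def Comparable (a b : ℕ → ℝ) : Prop :=
  ∃ c₁ c₂ : ℝ, 0 < c₁ ∧ 0 < c₂ ∧ ∃ n₀ : ℕ, ∀ n ≥ n₀, c₁ * a n ≤ b n ∧ b n ≤ c₂ * a n

end Pool.Agent.N890.DG
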