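import Mathlib
import Pool.Agent.Helper259.RatMaps

set_option autoImplicit false
set_option linter.unusedSectionVars false

/-! Degree heights of points over the field of rational functions. -/

namespace Pool.Agent.N890.DG.Ht

open MvPolynomial Pool.Agent.Helper259.RatMaps

/-- no nonconstant common factor -/
def Cop {α R : Type*} [CommRing R] (A : α → R) : Prop := ∀ G : R, (∀ i, G ∣ A i) → IsUnit G

section UFD

variable {R : Type*} [CommRing R] [IsDomain R] {α : Type*}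

lemma Cop.exists_ne {A : α → R} (hA : Cop A) : ∃ i, A i ≠ 0 := by
  by_contra h
  push Not at h
  exact not_isUnit_zero (hA 0 fun i => by rw [h i])

variable [UniqueFactorizationMonoid R]

lemma dvd_of_cross [Fintype α] {A B : α → R} (hA : Cop A)
    (h : ∀ i j, A i * B j = A j * B i) : ∃ g, ∀ i, B i = A i * g := by
  classical
  obtain ⟨i0, hi0⟩ := hA.exists_ne
  let _ : NormalizedGCDMonoid R := Classical.arbitrary _
  have h1 : A i0 ∣ Finset.univ.gcd fun j => A j * B i0 :=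
    Finset.dvd_gcd fun j _ => ⟨B j, (h i0 j).symm⟩
  have h2 : IsUnit (Finset.univ.gcd A) := hA _ fun i => Finset.gcd_dvd (Finset.mem_univ i)
  have h3 := Finset.gcd_mul_right' Finset.univ A (B i0)
  have h4 : A i0 ∣ Finset.univ.gcd A * B i0 := h1.trans h3.dvd
  have h5 : A i0 ∣ B i0 := (h2.dvd_mul_left).mp h4
  obtain ⟨g, hg⟩ := h5
  refine ⟨g, fun j => mul_left_cancel₀ hi0 ?_⟩
  rw [h i0 j, hg]
  ring

lemma Cop.exists_prime {A : α → R} (hp : ∀ p : R, Prime p → ∃ i, ¬ p ∣ A i) (hex : ∃ p : R, Prime p) :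
    Cop A := by
  intro G hG
  by_contra hu
  by_cases h0 : G = 0
  · obtain ⟨p, hpp⟩ := hex
    obtain ⟨i, hi⟩ := hp p hpp
    apply hi
    have := hG i
    rw [h0, zero_dvd_iff] at this
    rw [this]
    exact dvd_zero p
  · obtain ⟨p, hp1, hp2⟩ := WfDvdMonoid.exists_irreducible_factor hu h0
    obtain ⟨i, hi⟩ := hp p hp1.prime
    exact hi (hp2.trans (hG i))

/-- Gauss' lemma for a product of two linear forms -/
lemma cop_sym2 {A B : Fin 2 → R} (hA : Cop A) (hB : Cop B) (hex : ∃ p : R, Prime p) :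
    Cop ![A 0 * B 0, A 0 * B 1 + A 1 * B 0, A 1 * B 1] := by
  apply Cop.exists_prime _ hex
  intro p hp
  by_contra hcon
  push Not at hcon
  have h0 : p ∣ A 0 * B 0 := hcon 0
  have h1 : p ∣ A 0 * B 1 + A 1 * B 0 := hcon 1
  have h2 : p ∣ A 1 * B 1 := hcon 2
  have hA' : ¬ (p ∣ A 0 ∧ p ∣ A 1) := by
    rintro ⟨ha, hb⟩
    refine hp.not_isUnit (hA p fun i => ?_)
    fin_cases i
    exacts [ha, hb]
  have hB' : ¬ (p ∣ B 0 ∧ p ∣ B 1) := by
    rintro ⟨ha, hb⟩
    refine hp.not_isUnit (hB p fun i => ?_)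
    fin_cases i
    exacts [ha, hb]
  rcases hp.dvd_or_dvd h0 with ha | ha
  · have h3 : p ∣ A 1 * B 0 := (dvd_add_right (ha.mul_right _)).mp h1
    rcases hp.dvd_or_dvd h3 with hb | hb
    · exact hA' ⟨ha, hb⟩
    · rcases hp.dvd_or_dvd h2 with hc | hc
      · exact hA' ⟨ha, hc⟩
      · exact hB' ⟨hb, hc⟩
  · have h3 : p ∣ A 0 * B 1 := (dvd_add_left (ha.mul_left _)).mp h1
    rcases hp.dvd_or_dvd h3 with hb | hb
    · rcases hp.dvd_or_dvd h2 with hc | hc
      · exact hA' ⟨hb, hc⟩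
      · exact hB' ⟨ha, hc⟩
    · exact hB' ⟨ha, hb⟩

lemma cop_sq {A : Fin 2 → R} (hA : Cop A) (hex : ∃ p : R, Prime p) :
    Cop ![A 0 ^ 2, A 1 ^ 2] := by
  apply Cop.exists_prime _ hex
  intro p hp
  by_contra hcon
  push Not at hcon
  have h0 : p ∣ A 0 ^ 2 := hcon 0
  have h1 : p ∣ A 1 ^ 2 := hcon 1
  refine hp.not_isUnit (hA p fun i => ?_)
  fin_cases i
  exacts [hp.dvd_of_dvd_pow h0, hp.dvd_of_dvd_pow h1]

end UFD

/-! ### heights -/

section Heights

variable {σ K : Type*} [Field K]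

/-- the field of rational functions -/
abbrev L (σ K : Type*) [Field K] : Type _ := FractionRing (MvPolynomial σ K)

/-- the inclusion of polynomials -/
noncomputable abbrev ι : MvPolynomial σ K →+* L σ K := algebraMap (MvPolynomial σ K) (L σ K)

lemma ι_inj : Function.Injective (ι (σ := σ) (K := K)) := IsFractionRing.injective _ _

variable {α : Type*}

/-- the vector `v` is proportional to a vector of forms of degree `d` -/
def PH (v : α → L σ K) (d : ℕ) : Prop :=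
  ∃ (A : α → MvPolynomial σ K) (c : L σ K), c ≠ 0 ∧ (∀ i, (A i).IsHomogeneous d) ∧
    ∀ i, ι (A i) = c * v i

/-- the height of a vector -/
noncomputable def ph (v : α → L σ K) : ℕ := sInf {d | PH v d}

lemma ph_le {v : α → L σ K} {d : ℕ} (h : PH v d) : ph v ≤ d := Nat.sInf_le h

lemma PH.smul {v : α → L σ K} {d : ℕ} (h : PH v d) {c : L σ K} (hc : c ≠ 0) : PH (c • v) d := by
  obtain ⟨A, e, he, h1, h2⟩ := h
  refine ⟨A, e * c⁻¹, mul_ne_zero he (inv_ne_zero hc), h1, fun i => ?_⟩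
  rw [h2 i, Pi.smul_apply, smul_eq_mul]
  field_simp

lemma PH.smul_iff {v : α → L σ K} {d : ℕ} {c : L σ K} (hc : c ≠ 0) : PH (c • v) d ↔ PH v d := by
  refine ⟨fun h => ?_, fun h => h.smul hc⟩
  have := h.smul (inv_ne_zero hc)
  rwa [smul_smul, inv_mul_cancel₀ hc, one_smul] at this

lemma ph_smul (v : α → L σ K) {c : L σ K} (hc : c ≠ 0) : ph (c • v) = ph v := by
  unfold ph
  congr 1
  ext d
  exact PH.smul_iff hc

lemma exists_prime_poly [Nonempty σ] : ∃ p : MvPolynomial σ K, Prime p :=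
  ⟨X (Classical.arbitrary σ), MvPolynomial.X_prime⟩

/-- a coprime representation -/
lemma PH.cop [Fintype α] {v : α → L σ K} {d : ℕ} (h : PH v d) (hv : v ≠ 0) :
    ∃ (e : ℕ) (A : α → MvPolynomial σ K) (c : L σ K), e ≤ d ∧ c ≠ 0 ∧
      (∀ i, (A i).IsHomogeneous e) ∧ (∀ i, ι (A i) = c * v i) ∧ Cop A := by
  classical
  obtain ⟨F, c, hc, hF, hFv⟩ := h
  obtain ⟨i0, hi0⟩ : ∃ i, v i ≠ 0 := by
    by_contra hcon
    push Not at hcon
    exact hv (funext hcon)
  have hF0 : F i0 ≠ 0 := by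
    intro h
    have := hFv i0
    rw [h, map_zero] at this
    exact mul_ne_zero hc hi0 this.symm
  let _ : NormalizedGCDMonoid (MvPolynomial σ K) := Classical.arbitrary _
  obtain ⟨g, hg, hg1⟩ := Finset.extract_gcd F (s := Finset.univ) ⟨i0, Finset.mem_univ _⟩
  set G := Finset.univ.gcd F with hG
  have hG0 : G ≠ 0 := by
    intro h
    apply hF0
    rw [hg i0 (Finset.mem_univ _), h, zero_mul]
  obtain ⟨e, hGe, hg0e, heD⟩ : ∃ e, G.IsHomogeneous e ∧ (g i0).IsHomogeneous (d - e) ∧ e ≤ d :=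
    homog_of_mul (by rw [← hg i0 (Finset.mem_univ _)]; exact hF i0)
      (by rw [← hg i0 (Finset.mem_univ _)]; exact hF0)
  have hghom : ∀ i, (g i).IsHomogeneous (d - e) := by
    intro i
    by_cases hi : g i = 0
    · rw [hi]; exact isHomogeneous_zero _ _ _
    · obtain ⟨e', h1, h2, -⟩ := homog_of_mul (p := G) (q := g i) (D := d)
        (by rw [← hg i (Finset.mem_univ _)]; exact hF i) (mul_ne_zero hG0 hi)
      rwa [h1.inj_right hGe hG0] at h2
  have hcop : Cop g := by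
    intro H hH
    apply isUnit_of_dvd_one
    rw [← hg1]
    exact Finset.dvd_gcd fun i _ => hH i
  have hG0' : ι G ≠ 0 := fun h => hG0 (ι_inj (by rw [h, map_zero]))
  refine ⟨d - e, g, c * (ι G)⁻¹, Nat.sub_le _ _, mul_ne_zero hc (inv_ne_zero hG0'), hghom,
    fun i => ?_, hcop⟩
  apply mul_left_cancel₀ hG0'
  rw [← map_mul, ← hg i (Finset.mem_univ _), hFv i]
  field_simp

/-- a coprime representation computes the height -/
lemma ph_eq [Fintype α] {v : α → L σ K} {d : ℕ} {A : α → MvPolynomial σ K} {c : L σ K}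
    (hc : c ≠ 0) (hA : ∀ i, (A i).IsHomogeneous d) (h : ∀ i, ι (A i) = c * v i) (hcop : Cop A) :
    ph v = d := by
  apply le_antisymm (ph_le ⟨A, c, hc, hA, h⟩)
  refine le_csInf (s := {d | PH v d}) ⟨d, ⟨A, c, hc, hA, h⟩⟩ ?_
  rintro e ⟨B, c', hc', hB, h'⟩
  obtain ⟨g, hg⟩ := dvd_of_cross hcop (B := B) (fun i j => ι_inj (by
    rw [map_mul, map_mul, h, h', h, h']; ring))
  obtain ⟨i, hi⟩ := hcop.exists_ne
  have hvi : v i ≠ 0 := by
    intro hv
    have := h i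
    rw [hv, mul_zero] at this
    exact hi (ι_inj (by rw [this, map_zero]))
  have hBi : B i ≠ 0 := by
    intro hB0
    have := h' i
    rw [hB0, map_zero] at this
    exact mul_ne_zero hc' hvi this.symm
  obtain ⟨e', h1, -, h3⟩ := homog_of_mul (p := A i) (q := g) (D := e)
    (by rw [← hg]; exact hB i) (by rw [← hg]; exact hBi)
  rw [(hA i).inj_right h1 hi]
  exact h3

lemma PH.rep [Fintype α] {v : α → L σ K} {d : ℕ} (h : PH v d) (hv : v ≠ 0) :
    ∃ (A : α → MvPolynomial σ K) (c : L σ K), c ≠ 0 ∧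
      (∀ i, (A i).IsHomogeneous (ph v)) ∧ (∀ i, ι (A i) = c * v i) ∧ Cop A := by
  obtain ⟨e, A, c, -, hc, h1, h2, h3⟩ := h.cop hv
  refine ⟨A, c, hc, ?_, h2, h3⟩
  rw [ph_eq hc h1 h2 h3]
  exact h1

lemma PH.self {v : α → L σ K} {d : ℕ} (h : PH v d) : PH v (ph v) :=
  Nat.sInf_mem (s := {d | PH v d}) ⟨d, h⟩

lemma PH.comp {β : Type*} {v : α → L σ K} {d : ℕ} (h : PH v d) (f : β → α) :
    PH (v ∘ f) d := by
  obtain ⟨A, c, hc, hA, hv⟩ := h
  exact ⟨A ∘ f, c, hc, fun i => hA _, fun i => hv _⟩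

lemma ph_comp_le {β : Type*} {v : α → L σ K} {d : ℕ} (h : PH v d) (f : β → α) :
    ph (v ∘ f) ≤ ph v := ph_le (h.self.comp f)

lemma PH.pair {x : L σ K} {d : ℕ} (h : PH ![x, 1] d) : ∃ A B : MvPolynomial σ K,
    A.IsHomogeneous d ∧ B.IsHomogeneous d ∧ B ≠ 0 ∧ x * ι B = ι A := by
  obtain ⟨F, c, hc, hF, h⟩ := h
  have h0 : ι (F 0) = c * x := h 0
  have h1 : ι (F 1) = c * 1 := h 1
  refine ⟨F 0, F 1, hF 0, hF 1, ?_, ?_⟩
  · intro h2
    rw [h2, map_zero, mul_one] at h1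
    exact hc h1.symm
  · rw [h0, h1]; ring

lemma PH.of_pair {x : L σ K} {d : ℕ} {A B : MvPolynomial σ K} (hA : A.IsHomogeneous d)
    (hB : B.IsHomogeneous d) (hB0 : B ≠ 0) (h : x * ι B = ι A) : PH ![x, 1] d := by
  refine ⟨![A, B], ι B, fun h1 => hB0 (ι_inj (by rw [h1, map_zero])), ?_, ?_⟩
  · intro i; fin_cases i
    exacts [hA, hB]
  · intro i; fin_cases i
    · change ι A = ι B * x
      rw [← h]; ring
    · change ι B = ι B * 1
      rw [mul_one]

/-- the height of an element -/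
noncomputable def ht (x : L σ K) : ℕ := ph ![x, 1]

variable (σ K) in
/-- the field of rational functions which are quotients of forms of the same degree -/
def D0 : Subfield (L σ K) where
  carrier := {x | ∃ d, PH ![x, 1] d}
  zero_mem' := ⟨0, PH.of_pair (A := 0) (B := 1) (isHomogeneous_zero _ _ _)
    (isHomogeneous_one _ _) one_ne_zero (by simp)⟩
  one_mem' := ⟨0, PH.of_pair (A := 1) (B := 1) (isHomogeneous_one _ _)
    (isHomogeneous_one _ _) one_ne_zero (by simp)⟩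
  add_mem' := by
    rintro x y ⟨d, hx⟩ ⟨e, hy⟩
    obtain ⟨A, B, hA, hB, hB0, h⟩ := hx.pair
    obtain ⟨A', B', hA', hB', hB0', h'⟩ := hy.pair
    refine ⟨d + e, PH.of_pair (A := A * B' + B * A') (B := B * B') ((hA.mul hB').add (hB.mul hA'))
      (hB.mul hB') (mul_ne_zero hB0 hB0') ?_⟩
    rw [map_add, map_mul, map_mul, map_mul, ← h, ← h']; ring
  mul_mem' := by
    rintro x y ⟨d, hx⟩ ⟨e, hy⟩
    obtain ⟨A, B, hA, hB, hB0, h⟩ := hx.pair
    obtain ⟨A', B', hA', hB', hB0', h'⟩ := hy.pair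
    refine ⟨d + e, PH.of_pair (A := A * A') (B := B * B') (hA.mul hA')
      (hB.mul hB') (mul_ne_zero hB0 hB0') ?_⟩
    rw [map_mul, map_mul, ← h, ← h']; ring
  neg_mem' := by
    rintro x ⟨d, hx⟩
    obtain ⟨A, B, hA, hB, hB0, h⟩ := hx.pair
    refine ⟨d, PH.of_pair (A := -A) (B := B) hA.neg hB hB0 ?_⟩
    rw [map_neg, ← h]; ring
  inv_mem' := by
    rintro x ⟨d, hx⟩
    obtain ⟨A, B, hA, hB, hB0, h⟩ := hx.pair
    by_cases hx0 : x = 0
    · rw [hx0, inv_zero]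
      exact ⟨0, PH.of_pair (A := 0) (B := 1) (isHomogeneous_zero _ _ _)
        (isHomogeneous_one _ _) one_ne_zero (by simp)⟩
    · have hA0 : A ≠ 0 := by
        rintro rfl
        rw [map_zero] at h
        rcases mul_eq_zero.mp h with h1 | h1
        · exact hx0 h1
        · exact hB0 (ι_inj (by rw [h1, map_zero]))
      refine ⟨d, PH.of_pair (A := B) (B := A) hB hA hA0 ?_⟩
      rw [← h, inv_mul_cancel_left₀ hx0]

lemma mem_D0 {x : L σ K} : x ∈ D0 σ K ↔ ∃ d, PH ![x, 1] d := Iff.rfl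

lemma D0_self {x : L σ K} (h : x ∈ D0 σ K) : PH ![x, 1] (ht x) := by
  obtain ⟨d, hd⟩ := h
  exact hd.self

lemma ht_add {x y : L σ K} (hx : x ∈ D0 σ K) (hy : y ∈ D0 σ K) : ht (x + y) ≤ ht x + ht y := by
  obtain ⟨A, B, hA, hB, hB0, h⟩ := (D0_self hx).pair
  obtain ⟨A', B', hA', hB', hB0', h'⟩ := (D0_self hy).pair
  refine ph_le (PH.of_pair (A := A * B' + B * A') (B := B * B') ((hA.mul hB').add (hB.mul hA'))
    (hB.mul hB') (mul_ne_zero hB0 hB0') ?_)
  rw [map_add, map_mul, map_mul, map_mul, ← h, ← h']; ring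

lemma ht_mul {x y : L σ K} (hx : x ∈ D0 σ K) (hy : y ∈ D0 σ K) : ht (x * y) ≤ ht x + ht y := by
  obtain ⟨A, B, hA, hB, hB0, h⟩ := (D0_self hx).pair
  obtain ⟨A', B', hA', hB', hB0', h'⟩ := (D0_self hy).pair
  refine ph_le (PH.of_pair (A := A * A') (B := B * B') (hA.mul hA')
    (hB.mul hB') (mul_ne_zero hB0 hB0') ?_)
  rw [map_mul, map_mul, ← h, ← h']; ring

lemma ht_inv {x : L σ K} (hx : x ∈ D0 σ K) : ht x⁻¹ ≤ ht x := by
  by_cases hx0 : x = 0
  · rw [hx0, inv_zero]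
  obtain ⟨A, B, hA, hB, hB0, h⟩ := (D0_self hx).pair
  have hA0 : A ≠ 0 := by
    rintro rfl
    rw [map_zero] at h
    rcases mul_eq_zero.mp h with h1 | h1
    · exact hx0 h1
    · exact hB0 (ι_inj (by rw [h1, map_zero]))
  refine ph_le (PH.of_pair (A := B) (B := A) hB hA hA0 ?_)
  rw [← h, inv_mul_cancel_left₀ hx0]

lemma ht_neg {x : L σ K} (hx : x ∈ D0 σ K) : ht (-x) ≤ ht x := by
  obtain ⟨A, B, hA, hB, hB0, h⟩ := (D0_self hx).pair
  refine ph_le (PH.of_pair (A := -A) (B := B) hA.neg hB hB0 ?_)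
  rw [map_neg, ← h]; ring

lemma ht_sub {x y : L σ K} (hx : x ∈ D0 σ K) (hy : y ∈ D0 σ K) : ht (x - y) ≤ ht x + ht y := by
  rw [sub_eq_add_neg]
  exact (ht_add hx (neg_mem hy)).trans (by have := ht_neg hy; omega)

lemma ht_div {x y : L σ K} (hx : x ∈ D0 σ K) (hy : y ∈ D0 σ K) : ht (x / y) ≤ ht x + ht y := by
  rw [div_eq_mul_inv]
  exact (ht_mul hx (inv_mem hy)).trans (by have := ht_inv hy; omega)

lemma ht_one : ht (1 : L σ K) = 0 := by
  apply Nat.le_zero.mp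
  exact ph_le (PH.of_pair (A := 1) (B := 1) (isHomogeneous_one _ _)
    (isHomogeneous_one _ _) one_ne_zero (by simp))

lemma ne_pair {x : L σ K} : (![x, 1] : Fin 2 → L σ K) ≠ 0 := by
  intro h
  have := congrFun h 1
  simp at this

lemma ht_sq [Nonempty σ] {x : L σ K} (hx : x ∈ D0 σ K) : ht (x ^ 2) = 2 * ht x := by
  obtain ⟨A, c, hc, hA, h, hcop⟩ := (D0_self hx).rep ne_pair
  refine ph_eq (A := ![A 0 ^ 2, A 1 ^ 2]) (c := c ^ 2) (pow_ne_zero _ hc) ?_ ?_
    (cop_sq hcop exists_prime_poly)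
  · intro i
    fin_cases i
    · have := (hA 0).pow 2
      rw [mul_comm] at this
      exact this
    · have := (hA 1).pow 2
      rw [mul_comm] at this
      exact this
  · intro i
    have h0 : ι (A 0) = c * x := h 0
    have h1 : ι (A 1) = c * 1 := h 1
    fin_cases i
    · change ι (A 0 ^ 2) = c ^ 2 * x ^ 2
      rw [map_pow, h0]; ring
    · change ι (A 1 ^ 2) = c ^ 2 * 1
      rw [map_pow, h1]; ring

/-- common denominators -/
lemma PH_of_mem [Fintype α] {v : α → L σ K} (hv : ∀ i, v i ∈ D0 σ K) :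
    PH v (∑ i, ht (v i)) := by
  classical
  choose A B hA hB hB0 h using fun i => (D0_self (hv i)).pair
  have hιB : ∀ i, ι (B i) ≠ 0 := fun i h1 => hB0 i (ι_inj (by rw [h1, map_zero]))
  refine ⟨fun i => A i * ∏ j ∈ Finset.univ.erase i, B j, ∏ j, ι (B j),
    Finset.prod_ne_zero_iff.mpr fun j _ => hιB j, fun i => ?_, fun i => ?_⟩
  · rw [← Finset.add_sum_erase _ _ (Finset.mem_univ i)]
    exact (hA i).mul (IsHomogeneous.prod _ _ _ fun j _ => hB j)
  · rw [map_mul, ← h i, map_prod, ← Finset.mul_prod_erase _ _ (Finset.mem_univ i)]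
    ring

lemma ph_le_sum [Fintype α] {v : α → L σ K} (hv : ∀ i, v i ∈ D0 σ K) :
    ph v ≤ ∑ i, ht (v i) := ph_le (PH_of_mem hv)

/-- the height of a product of linear forms -/
lemma ph_sym2 [Nonempty σ] {x y : Fin 2 → L σ K} {d e : ℕ} (hx : PH x d) (hy : PH y e) (hx0 : x ≠ 0)
    (hy0 : y ≠ 0) : ph ![x 0 * y 0, x 0 * y 1 + x 1 * y 0, x 1 * y 1] = ph x + ph y := by
  obtain ⟨A, c, hc, hA, h, hcop⟩ := hx.rep hx0
  obtain ⟨B, c', hc', hB, h', hcop'⟩ := hy.rep hy0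
  refine ph_eq (A := ![A 0 * B 0, A 0 * B 1 + A 1 * B 0, A 1 * B 1]) (c := c * c')
    (mul_ne_zero hc hc') ?_ ?_ (cop_sym2 hcop hcop' exists_prime_poly)
  · intro i
    fin_cases i
    · exact (hA 0).mul (hB 0)
    · exact ((hA 0).mul (hB 1)).add ((hA 1).mul (hB 0))
    · exact (hA 1).mul (hB 1)
  · intro i
    fin_cases i
    · change ι (A 0 * B 0) = c * c' * (x 0 * y 0)
      rw [map_mul, h, h']; ring
    · change ι (A 0 * B 1 + A 1 * B 0) = c * c' * (x 0 * y 1 + x 1 * y 0)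
      rw [map_add, map_mul, map_mul, h, h', h, h']; ring
    · change ι (A 1 * B 1) = c * c' * (x 1 * y 1)
      rw [map_mul, h, h']; ring

end Heights

end Pool.Agent.N890.DG.Ht
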