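import Mathlib
import Pool.Agent.N890.DG.Ht

set_option autoImplicit false
set_option linter.unusedSectionVars false

/-! A criterion for algebraic independence of a tuple of forms. -/

namespace Pool.Agent.N890.DG.Dom

open MvPolynomial Ht

variable {K : Type*} [Field K] {n : ℕ}

lemma ιX_ne (i : Fin (n + 1)) : ι (X i : MvPolynomial (Fin (n + 1)) K) ≠ 0 := fun h =>
  X_ne_zero (R := K) i (ι_inj (by rw [h, map_zero]))

/-- scaling the variables of a form -/
lemma aeval_scale {σ : Type*} {F : Type*} [Field F] [Algebra K F] {p : MvPolynomial σ K} {d : ℕ}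
    (hp : p.IsHomogeneous d) (t : F) (v : σ → F) :
    aeval (fun i => t * v i) p = t ^ d * aeval v p := by
  rw [aeval_def, aeval_def, eval₂_eq, eval₂_eq, Finset.mul_sum]
  refine Finset.sum_congr rfl fun s hs => ?_
  have hdeg : ∑ i ∈ s.support, s i = d := by
    have h := hp (mem_support_iff.mp hs)
    have h2 : Finsupp.degree s = d := by
      rw [← h, Finsupp.degree_eq_weight_one]; rfl
    rw [← h2]; rfl
  simp only [mul_pow]
  rw [Finset.prod_mul_distrib, Finset.prod_pow_eq_pow_sum, hdeg]
  ring

lemma ι_aeval {σ : Type*} (p : MvPolynomial σ K) :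
    ι p = aeval (fun i => ι (X i : MvPolynomial σ K)) p := by
  have h := MvPolynomial.aeval_algebraMap_apply (L σ K) (X : σ → MvPolynomial σ K) p
  rw [aeval_X_left_apply] at h
  exact h.symm

lemma aeval_mem {σ F : Type*} [Field F] [Algebra K F] (E : IntermediateField K F) {v : σ → F}
    (hv : ∀ i, v i ∈ E) (p : MvPolynomial σ K) : aeval v p ∈ E := by
  have h := MvPolynomial.aeval_algebraMap_apply F (fun i => (⟨v i, hv i⟩ : E)) p
  have e : (algebraMap E F ∘ fun i => (⟨v i, hv i⟩ : E)) = v := rfl
  rw [e] at h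
  rw [h]
  exact (aeval (fun i => (⟨v i, hv i⟩ : E)) p).2

open IntermediateField IntermediateField.algebraAdjoinAdjoin in
theorem algInd (hn : 0 < n) (F : Fin (n + 1) → MvPolynomial (Fin (n + 1)) K) {d : ℕ}
    (hF : ∀ i, (F i).IsHomogeneous d) (hF0 : F 0 ≠ 0)
    (h : ∀ E : IntermediateField K (L (Fin (n + 1)) K), (∀ i, ι (F i) ∈ E) →
      ∀ i : Fin n, ι (X i.succ) / ι (X 0) ∈ E) :
    AlgebraicIndependent K F := by
  classical
  set S : Set (L (Fin (n + 1)) K) := Set.range fun i => ι (F i) with hS
  set E := IntermediateField.adjoin K S with hE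
  have hFE : ∀ i, ι (F i) ∈ E := fun i => subset_adjoin _ _ ⟨i, rfl⟩
  have hu := h E hFE
  have hX0 := ιX_ne (K := K) (n := n) 0
  -- the first form
  set v : Fin (n + 1) → L (Fin (n + 1)) K := fun i => ι (X i) / ι (X 0) with hv
  have hvE : ∀ i, v i ∈ E := by
    intro i
    refine Fin.cases ?_ (fun k => hu k) i
    rw [hv]
    simp only
    rw [div_self hX0]
    exact one_mem _
  have hF0' : ι (F 0) = ι (X 0) ^ d * aeval v (F 0) := by
    rw [← aeval_scale (hF 0), ι_aeval]
    congr 2
    funext i
    rw [hv]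
    field_simp
  have hz : aeval v (F 0) ∈ E := aeval_mem E hvE _
  have hz0 : aeval v (F 0) ≠ 0 := by
    intro h0
    rw [h0, mul_zero] at hF0'
    exact hF0 (ι_inj (by rw [hF0', map_zero]))
  have hXd : ι (X 0) ^ d ∈ E := by
    have : ι (X 0) ^ d = ι (F 0) / aeval v (F 0) := by
      rw [hF0', mul_div_assoc, div_self hz0, mul_one]
    rw [this]
    exact div_mem (hFE 0) hz
  have hd : 0 < d := by
    rcases Nat.eq_zero_or_pos d with rfl | hd
    · exfalso
      have hbot : E = ⊥ := by
        rw [hE, adjoin_eq_bot_iff]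
        rintro _ ⟨i, rfl⟩
        have hc : F i = C (coeff 0 (F i)) := (totalDegree_eq_zero_iff_eq_C).mp
          (Nat.le_zero.mp (hF i).totalDegree_le)
        simp only
        rw [hc]
        exact IntermediateField.mem_bot.mpr ⟨coeff 0 (F i), IsScalarTower.algebraMap_apply K
          (MvPolynomial (Fin (n + 1)) K) (L (Fin (n + 1)) K) _⟩
      have h1 := hu ⟨0, hn⟩
      rw [hbot, IntermediateField.mem_bot] at h1
      obtain ⟨k, hk⟩ := h1
      have h2 : ι (X (Fin.succ ⟨0, hn⟩)) = ι (C k * X 0 : MvPolynomial (Fin (n + 1)) K) := by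
        rw [map_mul]
        have : ι (C k : MvPolynomial (Fin (n + 1)) K) = algebraMap K _ k :=
          (IsScalarTower.algebraMap_apply K
            (MvPolynomial (Fin (n + 1)) K) (L (Fin (n + 1)) K) _).symm
        rw [this, hk, div_mul_cancel₀ _ hX0]
      have h3 := ι_inj h2
      have h4 := congrArg (coeff (Finsupp.single (Fin.succ ⟨0, hn⟩) 1)) h3
      have h6 : ¬ (Finsupp.single (0 : Fin (n + 1)) 1 = Finsupp.single (Fin.succ ⟨0, hn⟩) 1) := by
        intro h5
        have := Finsupp.single_left_injective one_ne_zero h5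
        exact (Fin.succ_ne_zero _) this.symm
      rw [coeff_C_mul, coeff_X, coeff_X, if_pos rfl, if_neg h6, mul_zero] at h4
      exact one_ne_zero h4
    · exact hd
  have halg0 : IsAlgebraic E (ι (X 0 : MvPolynomial (Fin (n + 1)) K)) := by
    apply IsAlgebraic.of_pow hd
    exact isAlgebraic_algebraMap (⟨_, hXd⟩ : E)
  have halg : ∀ i, ι (X i) ∈ algebraicClosure E (L (Fin (n + 1)) K) := by
    intro i
    have h1 : ι (X 0) ∈ algebraicClosure E (L (Fin (n + 1)) K) :=
      mem_algebraicClosure_iff.mpr halg0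
    have h2 : v i ∈ algebraicClosure E (L (Fin (n + 1)) K) :=
      mem_algebraicClosure_iff.mpr (isAlgebraic_algebraMap (⟨_, hvE i⟩ : E))
    have h3 : ι (X i) = v i * ι (X 0) := by
      rw [hv]; field_simp
    rw [h3]
    exact mul_mem h2 h1
  have hpoly : ∀ p : MvPolynomial (Fin (n + 1)) K,
      ι p ∈ algebraicClosure E (L (Fin (n + 1)) K) := by
    intro p
    rw [ι_aeval]
    exact aeval_mem ((algebraicClosure E (L (Fin (n + 1)) K)).restrictScalars K) halg p
  have hAlgE : Algebra.IsAlgebraic E (L (Fin (n + 1)) K) := by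
    refine ⟨fun x => ?_⟩
    obtain ⟨p, q, hq, rfl⟩ := IsFractionRing.div_surjective (A := MvPolynomial (Fin (n + 1)) K) x
    exact mem_algebraicClosure_iff.mp (div_mem (hpoly p) (hpoly q))
  have hAlg : Algebra.IsAlgebraic (Algebra.adjoin K S) (L (Fin (n + 1)) K) := by
    have : Algebra.IsAlgebraic (IntermediateField.adjoin K S) (L (Fin (n + 1)) K) := hAlgE
    exact (IsFractionRing.comap_isAlgebraic_iff (A := Algebra.adjoin K S)
      (K := IntermediateField.adjoin K S) (C := L (Fin (n + 1)) K)).mpr this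
  have hbasis : IsTranscendenceBasis K (fun i => ι (F i)) := by
    have : Algebra.IsAlgebraic (Algebra.adjoin K (Set.range fun i => ι (F i)))
      (L (Fin (n + 1)) K) := hAlg
    apply Algebra.IsAlgebraic.isTranscendenceBasis_of_lift_le_trdeg_of_finite K
    have hXind : AlgebraicIndependent K (fun i => ι (X i : MvPolynomial (Fin (n + 1)) K)) := by
      have := (MvPolynomial.algebraicIndependent_X (Fin (n + 1)) K).map'
        (f := IsScalarTower.toAlgHom K (MvPolynomial (Fin (n + 1)) K) (L (Fin (n + 1)) K))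
        ι_inj
      exact this
    exact hXind.lift_cardinalMk_le_trdeg
  have h5 := hbasis.1
  exact AlgebraicIndependent.of_comp
    (IsScalarTower.toAlgHom K (MvPolynomial (Fin (n + 1)) K) (L (Fin (n + 1)) K)) h5

end Pool.Agent.N890.DG.Dom
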