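import Mathlib
import Pool.Agent.N890.DG.Ht

set_option autoImplicit false
set_option linter.unusedSectionVars false

/-! Values of rational functions. -/

namespace Pool.Agent.N890.DG.Eval

open MvPolynomial Ht

variable {σ K F : Type*} [Field K] [Field F] [Algebra K F]

/-- the rational function `r` is regular at `a` with value `c` -/
def Ev (a : σ → F) (r : L σ K) (c : F) : Prop :=
  ∃ p q : MvPolynomial σ K, aeval a q ≠ 0 ∧ r * ι q = ι p ∧ c * aeval a q = aeval a p

namespace Ev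

variable {a : σ → F} {r s : L σ K} {c e : F}

lemma poly (p : MvPolynomial σ K) : Ev a (ι p) (aeval a p) :=
  ⟨p, 1, by simp, by simp, by simp⟩

lemma var (i : σ) : Ev a (ι (X i : MvPolynomial σ K)) (a i) := by
  have := poly (a := a) (X i : MvPolynomial σ K)
  rwa [aeval_X] at this

lemma add (hr : Ev a r c) (hs : Ev a s e) : Ev a (r + s) (c + e) := by
  obtain ⟨p, q, hq, h1, h2⟩ := hr
  obtain ⟨p', q', hq', h1', h2'⟩ := hs
  refine ⟨p * q' + p' * q, q * q', ?_, ?_, ?_⟩
  · rw [map_mul]; exact mul_ne_zero hq hq'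
  · rw [map_mul, map_add, map_mul, map_mul, ← h1, ← h1']; ring
  · rw [map_mul, map_add, map_mul, map_mul, ← h2, ← h2']; ring

lemma mul (hr : Ev a r c) (hs : Ev a s e) : Ev a (r * s) (c * e) := by
  obtain ⟨p, q, hq, h1, h2⟩ := hr
  obtain ⟨p', q', hq', h1', h2'⟩ := hs
  refine ⟨p * p', q * q', ?_, ?_, ?_⟩
  · rw [map_mul]; exact mul_ne_zero hq hq'
  · rw [map_mul, map_mul, ← h1, ← h1']; ring
  · rw [map_mul, map_mul, ← h2, ← h2']; ring

lemma neg (hr : Ev a r c) : Ev a (-r) (-c) := by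
  obtain ⟨p, q, hq, h1, h2⟩ := hr
  refine ⟨-p, q, hq, ?_, ?_⟩
  · rw [map_neg, ← h1]; ring
  · rw [map_neg, ← h2]; ring

lemma sub (hr : Ev a r c) (hs : Ev a s e) : Ev a (r - s) (c - e) := by
  rw [sub_eq_add_neg, sub_eq_add_neg]
  exact hr.add hs.neg

lemma ne_zero (hr : Ev a r c) (hc : c ≠ 0) : r ≠ 0 := by
  obtain ⟨p, q, hq, h1, h2⟩ := hr
  rintro rfl
  rw [zero_mul] at h1
  have hp : p = 0 := ι_inj (by rw [← h1, map_zero])
  rw [hp, map_zero] at h2
  exact mul_ne_zero hc hq h2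

lemma inv (hr : Ev a r c) (hc : c ≠ 0) : Ev a r⁻¹ c⁻¹ := by
  have hr0 := hr.ne_zero hc
  obtain ⟨p, q, hq, h1, h2⟩ := hr
  have hp : aeval a p ≠ 0 := by rw [← h2]; exact mul_ne_zero hc hq
  refine ⟨q, p, hp, ?_, ?_⟩
  · rw [← h1, inv_mul_cancel_left₀ hr0]
  · rw [← h2, inv_mul_cancel_left₀ hc]

lemma div (hr : Ev a r c) (hs : Ev a s e) (he : e ≠ 0) : Ev a (r / s) (c / e) := by
  rw [div_eq_mul_inv, div_eq_mul_inv]
  exact hr.mul (hs.inv he)

lemma one : Ev a (1 : L σ K) 1 := by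
  have := poly (a := a) (1 : MvPolynomial σ K)
  simpa using this

lemma pow (hr : Ev a r c) (n : ℕ) : Ev a (r ^ n) (c ^ n) := by
  induction n with
  | zero => simpa using one
  | succ n ih => rw [pow_succ, pow_succ]; exact ih.mul hr

lemma two : Ev a (2 : L σ K) 2 := by
  have := (one (a := a) (K := K)).add one
  rwa [one_add_one_eq_two, one_add_one_eq_two] at this

lemma three : Ev a (3 : L σ K) 3 := by
  have := (two (a := a) (K := K)).add one
  rwa [two_add_one_eq_three, two_add_one_eq_three] at this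

/-- evaluation with a coprime representation -/
lemma coprime (hr : Ev a r c) {A B : MvPolynomial σ K} (hcop : Cop ![A, B]) (hB : B ≠ 0)
    (h : r * ι B = ι A) : aeval a B ≠ 0 ∧ c * aeval a B = aeval a A := by
  obtain ⟨p, q, hq, h1, h2⟩ := hr
  have hιB : ι B ≠ 0 := fun h => hB (ι_inj (by rw [h, map_zero]))
  have hcr : A * q = B * p := by
    apply ι_inj
    rw [map_mul, map_mul, ← h, ← h1]; ring
  obtain ⟨g, hg⟩ := dvd_of_cross hcop (B := ![p, q]) (by
    intro i k
    fin_cases i <;> fin_cases k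
    · rfl
    · exact hcr
    · exact hcr.symm
    · rfl)
  have g0 : p = A * g := hg 0
  have g1 : q = B * g := hg 1
  rw [g1, map_mul] at hq
  have hB' : aeval a B ≠ 0 := left_ne_zero_of_mul hq
  have hg' : aeval a g ≠ 0 := right_ne_zero_of_mul hq
  refine ⟨hB', ?_⟩
  rw [g0, g1, map_mul, map_mul, ← mul_assoc] at h2
  exact mul_right_cancel₀ hg' h2

end Ev

end Pool.Agent.N890.DG.Eval
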