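import Mathlib

set_option autoImplicit false
set_option linter.unusedSectionVars false

/-! The curves `y ^ 2 = x ^ 3 + b` over a field of characteristic zero. -/

namespace Pool.Agent.N890.DG.Ell

open WeierstrassCurve WeierstrassCurve.Affine

variable {F : Type*} [Field F] [CharZero F] {b : F}

/-- the curve `y ^ 2 = x ^ 3 + b` -/
def W (b : F) : WeierstrassCurve F := ⟨0, 0, 0, 0, b⟩

lemma W_eq {x y : F} (h : (W b).toAffine.Nonsingular x y) : y ^ 2 = x ^ 3 + b := by
  have := (WeierstrassCurve.Affine.equation_iff x y).mp h.1
  simpa [W] using this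

lemma W_nonsing (hb : b ≠ 0) {x y : F} (h : y ^ 2 = x ^ 3 + b) :
    (W b).toAffine.Nonsingular x y := by
  rw [WeierstrassCurve.Affine.nonsingular_iff, WeierstrassCurve.Affine.equation_iff]
  refine ⟨by simpa [W] using h, ?_⟩
  by_cases hy : y = 0
  · left
    have hx : x ≠ 0 := by
      rintro rfl
      apply hb
      rw [hy] at h
      simpa using h.symm
    simp [W, hx]
  · right
    simp only [W]
    intro h1
    apply hy
    have h2 : (2 : F) * y = 0 := by linear_combination h1
    simpa using h2

lemma negY_eq (x y : F) : (W b).toAffine.negY x y = -y := by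
  simp [WeierstrassCurve.Affine.negY, W]

variable [DecidableEq F]

lemma add_ne {x y x' y' : F} (h : (W b).toAffine.Nonsingular x y)
    (h' : (W b).toAffine.Nonsingular x' y')
    (hx : x ≠ x') : ∃ (X Y : F) (hn : (W b).toAffine.Nonsingular X Y),
      Point.some x y h + Point.some x' y' h' = Point.some X Y hn ∧
      X = ((y - y') / (x - x')) ^ 2 - x - x' ∧
      Y = -(y + (y - y') / (x - x') * (X - x)) := by
  refine ⟨_, _, _, Point.add_of_X_ne hx, ?_, ?_⟩
  · rw [slope_of_X_ne hx]
    simp [WeierstrassCurve.Affine.addX, W]
  · rw [slope_of_X_ne hx]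
    simp [WeierstrassCurve.Affine.addY, WeierstrassCurve.Affine.negAddY,
      WeierstrassCurve.Affine.addX, W, WeierstrassCurve.Affine.negY]
    ring

lemma dbl {x y : F} (h : (W b).toAffine.Nonsingular x y) (hy : y ≠ 0) :
    ∃ (X Y : F) (hn : (W b).toAffine.Nonsingular X Y),
      Point.some x y h + Point.some x y h = Point.some X Y hn ∧
      X = (3 * x ^ 2 / (2 * y)) ^ 2 - x - x ∧
      Y = -(y + 3 * x ^ 2 / (2 * y) * (X - x)) := by
  have hy' : y ≠ (W b).toAffine.negY x y := by
    rw [negY_eq]
    intro h
    apply hy
    have h2 : (2 : F) * y = 0 := by linear_combination h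
    simpa using h2
  have hs : (W b).toAffine.slope x x y y = 3 * x ^ 2 / (2 * y) := by
    rw [slope_of_Y_ne rfl hy', negY_eq]
    simp only [WeierstrassCurve.toAffine, W]
    congr 1 <;> ring
  refine ⟨_, _, _, Point.add_self_of_Y_ne hy', ?_, ?_⟩
  · rw [hs]
    simp [WeierstrassCurve.Affine.addX, W]
  · rw [hs]
    simp [WeierstrassCurve.Affine.addY, WeierstrassCurve.Affine.negAddY,
      WeierstrassCurve.Affine.addX, W, WeierstrassCurve.Affine.negY]
    ring

lemma neg_pt (hb : b ≠ 0) {x y : F} (h : (W b).toAffine.Nonsingular x y) :
    ∃ hn : (W b).toAffine.Nonsingular x (-y), -Point.some x y h = Point.some x (-y) hn := by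
  have e : -Point.some x y h = Point.some x ((W b).toAffine.negY x y)
    ((nonsingular_neg ..).mpr h) := Point.neg_some h
  rw [e]
  simp only [negY_eq]
  exact ⟨W_nonsing hb (by rw [neg_sq]; exact W_eq h), trivial⟩

/-- values of `addSubMap` -/
def asm (b : F) (v : Fin 3 → F) : Fin 3 → F :=
  ![v 0 ^ 2 - 4 * b * v 1 * v 2, 2 * v 1 * v 0 + 4 * b * v 2 ^ 2, v 1 ^ 2 - 4 * v 0 * v 2]

lemma dbl_x {x y : F} (h : (W b).toAffine.Nonsingular x y) (hy : y ≠ 0) :
    ![x ^ 4 - 8 * b * x, 4 * y ^ 2, 0] =
      (4 * y ^ 2) • (Point.some x y h + Point.some x y h).sym2x (0 : (W b).toAffine.Point) := by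
  obtain ⟨X, Y, hn, e, hX, -⟩ := dbl h hy
  rw [e, Point.sym2x_some_zero, hX]
  have hW := W_eq h
  funext i
  fin_cases i
  · simp
    field_simp
    linear_combination (32 * x) * hW
  · simp
  · simp

lemma addSub (hb : b ≠ 0) (P Q : (W b).toAffine.Point) : ∃ t : F, t ≠ 0 ∧
    asm b (P.sym2x Q) = t • (P + Q).sym2x (P - Q) := by
  rcases P with _ | ⟨x, y, h⟩
  · rcases Q with _ | ⟨x', y', h'⟩
    · refine ⟨1, one_ne_zero, ?_⟩
      simp [← Point.zero_def, asm]
    · refine ⟨1, one_ne_zero, ?_⟩
      rw [← Point.zero_def, zero_add, zero_sub, Point.sym2x_neg_right, Point.sym2x_zero_some,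
        Point.sym2x_some_some]
      funext i
      fin_cases i <;> simp [asm] <;> ring
  · rcases Q with _ | ⟨x', y', h'⟩
    · refine ⟨1, one_ne_zero, ?_⟩
      rw [← Point.zero_def, add_zero, sub_zero, Point.sym2x_some_zero,
        Point.sym2x_some_some]
      funext i
      fin_cases i <;> simp [asm] <;> ring
    · have hW := W_eq h
      have hW' := W_eq h'
      by_cases hx : x = x'
      · subst hx
        have hyy : y = y' ∨ y = -y' := by
          rw [← sq_eq_sq_iff_eq_or_eq_neg, hW, hW']
        by_cases hy : y = 0
        · have hy' : y' = 0 := by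
            rcases hyy with h1 | h1
            · rw [← h1]; exact hy
            · rw [hy] at h1
              simpa using h1.symm
          have hz : ∀ (a c : F) (ha : (W b).toAffine.Nonsingular x a)
              (hc : (W b).toAffine.Nonsingular x c), a = 0 → c = 0 →
              Point.some x a ha + Point.some x c hc = 0 := by
            intro a c ha hc ha0 hc0
            apply Point.add_of_Y_eq rfl
            rw [negY_eq, ha0, hc0, neg_zero]
          obtain ⟨hn, e⟩ := neg_pt hb h'
          have hx3 : x ^ 3 = -b := by rw [hy] at hW; linear_combination -hW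
          have hx0 : x ≠ 0 := by
            rintro rfl
            apply hb
            simpa using hx3.symm
          refine ⟨-9 * b * x, mul_ne_zero (mul_ne_zero (by norm_num) hb) hx0, ?_⟩
          have hsub : Point.some x y h - Point.some x y' h' =
              Point.some x y h + Point.some x (-y') hn := by rw [sub_eq_add_neg, e]
          rw [hsub, hz _ _ h h' hy hy', hz _ _ h hn hy (by rw [hy', neg_zero]),
            Point.sym2x_zero_zero, Point.sym2x_some_some]
          funext i
          fin_cases i
          · simp [asm]
            linear_combination x * hx3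
          · simp [asm]
            linear_combination 4 * hx3
          · simp [asm]
            ring
        · have h4 : 4 * y ^ 2 ≠ 0 := mul_ne_zero (by norm_num) (pow_ne_zero _ hy)
          rcases hyy with h1 | h1
          · subst h1
            refine ⟨4 * y ^ 2, h4, ?_⟩
            have hP : Point.some x y h - Point.some x y h' = 0 := sub_self _
            rw [hP, ← dbl_x h hy, Point.sym2x_some_some]
            funext i
            fin_cases i
            · simp [asm]; ring
            · simp [asm]; linear_combination -4 * hW
            · simp [asm]; ring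
          · have hP : Point.some x y h + Point.some x y' h' = 0 := by
              apply Point.add_of_Y_eq rfl
              rw [negY_eq]; exact h1
            have hP2 : Point.some x y h - Point.some x y' h' =
                Point.some x y h + Point.some x y h := by
              rw [sub_eq_add_neg, ← eq_neg_of_add_eq_zero_left hP]
            refine ⟨4 * y ^ 2, h4, ?_⟩
            rw [hP, hP2, Point.sym2x_comm (0 : (W b).toAffine.Point), ← dbl_x h hy,
              Point.sym2x_some_some]
            funext i
            fin_cases i
            · simp [asm]; ring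
            · simp [asm]; linear_combination -4 * hW
            · simp [asm]; ring
      · obtain ⟨hn, e⟩ := neg_pt hb h'
        obtain ⟨X1, Y1, hn1, e1, hX1, -⟩ := add_ne h h' hx
        obtain ⟨X2, Y2, hn2, e2, hX2, -⟩ := add_ne h hn hx
        have hx' : x - x' ≠ 0 := sub_ne_zero.mpr hx
        refine ⟨(x - x') ^ 2, pow_ne_zero _ hx', ?_⟩
        have hsub : Point.some x y h - Point.some x' y' h' =
            Point.some x y h + Point.some x' (-y') hn := by rw [sub_eq_add_neg, e]
        rw [hsub, e1, e2, Point.sym2x_some_some, Point.sym2x_some_some, hX1, hX2]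
        set p := (y - y') / (x - x') with hp
        set q := (y - -y') / (x - x') with hq
        have hp' : p * (x - x') = y - y' := by rw [hp]; field_simp
        have hq' : q * (x - x') = y + y' := by rw [hq]; field_simp; ring
        have h1 : (x - x') * p * q = x ^ 2 + x * x' + x' ^ 2 := by
          apply mul_left_cancel₀ hx'
          linear_combination (q * (x - x')) * hp' + (y - y') * hq' + hW - hW'
        have h2 : (x - x') ^ 2 * (p ^ 2 + q ^ 2) = 2 * (y ^ 2 + y' ^ 2) := by
          linear_combination (p * (x - x') + (y - y')) * hp' + (q * (x - x') + (y + y')) * hq'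
        funext i
        fin_cases i
        · simp [asm]
          linear_combination (-((x - x') * p * q + (x ^ 2 + x * x' + x' ^ 2))) * h1 +
            (x + x') * h2 + 2 * (x + x') * hW + 2 * (x + x') * hW'
        · simp [asm]
          linear_combination -h2 - 2 * hW - 2 * hW'
        · simp [asm]
          ring

end Pool.Agent.N890.DG.Ell
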