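import Mathlib
import Pool.Agent.N890.DG.Ell

set_option autoImplicit false
set_option linter.unusedSectionVars false

/-! Explicit formulas for the rational self-map. -/

namespace Pool.Agent.N890.DG.Form

open Ell WeierstrassCurve WeierstrassCurve.Affine

section Formulas

variable {F : Type*} [Field F]

def tau (u1 u2 w : F) : F :=
  2 * ((u1 ^ 3 - 1) - w * (u2 ^ 3 - 1)) / (w ^ 2 * (u2 ^ 3 - 1) - (u1 ^ 3 - 1))
def kap (u1 u2 w : F) : F := (u2 ^ 3 - 1) / (tau u1 u2 w * (2 + tau u1 u2 w))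
def addX (κ X1 Y1 X2 Y2 : F) : F := κ * ((Y1 - Y2) / (X1 - X2)) ^ 2 - X1 - X2
def addY (κ X1 Y1 X2 Y2 : F) : F :=
  -(Y1 + (Y1 - Y2) / (X1 - X2) * (addX κ X1 Y1 X2 Y2 - X1))
def SX (u1 u2 w : F) : F := addX (kap u1 u2 w) u1 (1 + w * tau u1 u2 w) u2 (1 + tau u1 u2 w)
def SY (u1 u2 w : F) : F := addY (kap u1 u2 w) u1 (1 + w * tau u1 u2 w) u2 (1 + tau u1 u2 w)
def RX (u1 u2 w : F) : F := addX (kap u1 u2 w) u2 (1 + tau u1 u2 w) 1 1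
def RY (u1 u2 w : F) : F := addY (kap u1 u2 w) u2 (1 + tau u1 u2 w) 1 1
def TW (u1 u2 w : F) : F := (SY u1 u2 w - 1) / (RY u1 u2 w - 1)

/-- the product of the quantities that have to be nonzero -/
def nd (u1 u2 w : F) : F :=
  (w ^ 2 * (u2 ^ 3 - 1) - (u1 ^ 3 - 1)) * tau u1 u2 w * (2 + tau u1 u2 w) *
    (kap u1 u2 w) * (kap u1 u2 w - 1) * (u1 - u2) * (u2 - 1) *
    (SY u1 u2 w - 1) * (RY u1 u2 w - 1) * (SY u1 u2 w - RY u1 u2 w) * (RY u1 u2 w + 1) *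
    (RX u1 u2 w - 1) * (SX u1 u2 w - u2)

variable {E : Type*} [Field E] (g : F →+* E)

lemma map_two' : g 2 = 2 := map_ofNat g 2

lemma map_tau (u1 u2 w : F) : g (tau u1 u2 w) = tau (g u1) (g u2) (g w) := by
  simp [tau, map_two']

lemma map_kap (u1 u2 w : F) : g (kap u1 u2 w) = kap (g u1) (g u2) (g w) := by
  simp [kap, map_tau, map_two']

lemma map_addX (κ X1 Y1 X2 Y2 : F) :
    g (addX κ X1 Y1 X2 Y2) = addX (g κ) (g X1) (g Y1) (g X2) (g Y2) := by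
  simp [addX]

lemma map_addY (κ X1 Y1 X2 Y2 : F) :
    g (addY κ X1 Y1 X2 Y2) = addY (g κ) (g X1) (g Y1) (g X2) (g Y2) := by
  simp [addY, map_addX]

lemma map_SX (u1 u2 w : F) : g (SX u1 u2 w) = SX (g u1) (g u2) (g w) := by
  simp [SX, map_addX, map_kap, map_tau]

lemma map_SY (u1 u2 w : F) : g (SY u1 u2 w) = SY (g u1) (g u2) (g w) := by
  simp [SY, map_addY, map_kap, map_tau]

lemma map_RX (u1 u2 w : F) : g (RX u1 u2 w) = RX (g u1) (g u2) (g w) := by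
  simp [RX, map_addX, map_kap, map_tau]

lemma map_RY (u1 u2 w : F) : g (RY u1 u2 w) = RY (g u1) (g u2) (g w) := by
  simp [RY, map_addY, map_kap, map_tau]

lemma map_TW (u1 u2 w : F) : g (TW u1 u2 w) = TW (g u1) (g u2) (g w) := by
  simp [TW, map_SY, map_RY]

lemma map_nd (u1 u2 w : F) : g (nd u1 u2 w) = nd (g u1) (g u2) (g w) := by
  simp [nd, map_SX, map_RX, map_SY, map_RY, map_kap, map_tau, map_two']

/-- the nondegeneracy conditions -/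
structure ND (u1 u2 w : F) : Prop where
  den : w ^ 2 * (u2 ^ 3 - 1) - (u1 ^ 3 - 1) ≠ 0
  tau0 : tau u1 u2 w ≠ 0
  tau2 : 2 + tau u1 u2 w ≠ 0
  kap0 : kap u1 u2 w ≠ 0
  kap1 : kap u1 u2 w ≠ 1
  h12 : u1 ≠ u2
  h21 : u2 ≠ 1
  SY1 : SY u1 u2 w ≠ 1
  RY1 : RY u1 u2 w ≠ 1
  SR : SY u1 u2 w ≠ RY u1 u2 w
  RY1' : RY u1 u2 w ≠ -1
  RX1 : RX u1 u2 w ≠ 1
  SX2 : SX u1 u2 w ≠ u2

lemma ND_iff (u1 u2 w : F) : ND u1 u2 w ↔ nd u1 u2 w ≠ 0 := by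
  constructor
  · rintro ⟨h1, h2, h3, h4, h5, h6, h7, h8, h9, h10, h11, h12, h13⟩
    rw [nd]
    have h11' : RY u1 u2 w + 1 ≠ 0 := fun h => h11 (eq_neg_of_add_eq_zero_left h)
    simp [h1, h2, h3, h4, sub_ne_zero.mpr h5, sub_ne_zero.mpr h6, sub_ne_zero.mpr h7,
      sub_ne_zero.mpr h8, sub_ne_zero.mpr h9, sub_ne_zero.mpr h10, h11', sub_ne_zero.mpr h12,
      sub_ne_zero.mpr h13]
  · intro h
    rw [nd] at h
    simp only [mul_ne_zero_iff] at h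
    obtain ⟨⟨⟨⟨⟨⟨⟨⟨⟨⟨⟨⟨h1, h2⟩, h3⟩, h4⟩, h5⟩, h6⟩, h7⟩, h8⟩, h9⟩, h10⟩, h11⟩, h12⟩, h13⟩ := h
    refine ⟨h1, h2, h3, h4, sub_ne_zero.mp h5, sub_ne_zero.mp h6, sub_ne_zero.mp h7,
      sub_ne_zero.mp h8, sub_ne_zero.mp h9, sub_ne_zero.mp h10, ?_, sub_ne_zero.mp h12,
      sub_ne_zero.mp h13⟩
    intro h
    apply h11
    rw [h]; ring

variable [CharZero F]

/-- recovering the parameters -/
lemma recover {κ X1 Y1 X2 Y2 : F} (hκ : κ ≠ 0) (e1 : κ * (Y1 ^ 2 - 1) = X1 ^ 3 - 1)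
    (e2 : κ * (Y2 ^ 2 - 1) = X2 ^ 3 - 1) (h1 : Y1 ≠ 1) (h2 : Y2 ≠ 1) (h12 : Y1 ≠ Y2)
    (h2' : Y2 ≠ -1) : tau X1 X2 ((Y1 - 1) / (Y2 - 1)) = Y2 - 1 ∧
      kap X1 X2 ((Y1 - 1) / (Y2 - 1)) = κ := by
  have d1 : Y1 - 1 ≠ 0 := sub_ne_zero.mpr h1
  have d2 : Y2 - 1 ≠ 0 := sub_ne_zero.mpr h2
  have d12 : Y1 - Y2 ≠ 0 := sub_ne_zero.mpr h12
  have d2' : Y2 + 1 ≠ 0 := fun h => h2' (eq_neg_of_add_eq_zero_left h)
  have key : ((Y1 - 1) / (Y2 - 1)) ^ 2 * (X2 ^ 3 - 1) - (X1 ^ 3 - 1) =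
      2 * κ * (Y1 - 1) * (Y1 - Y2) / (Y2 - 1) := by
    rw [← e1, ← e2]
    field_simp
    ring
  have key2 : ((Y1 - 1) / (Y2 - 1)) ^ 2 * (X2 ^ 3 - 1) - (X1 ^ 3 - 1) ≠ 0 := by
    rw [key]
    exact div_ne_zero (mul_ne_zero (mul_ne_zero (mul_ne_zero two_ne_zero hκ) d1) d12) d2
  have ht : tau X1 X2 ((Y1 - 1) / (Y2 - 1)) = Y2 - 1 := by
    rw [tau, div_eq_iff key2, key, ← e1, ← e2]
    field_simp
    ring
  refine ⟨ht, ?_⟩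
  rw [kap, ht, ← e2, div_eq_iff (mul_ne_zero d2 (by
    rw [show 2 + (Y2 - 1) = Y2 + 1 by ring]; exact d2'))]
  ring

/-- the two points lie on the curve -/
lemma on_curve {u1 u2 w : F} (h : ND u1 u2 w) :
    kap u1 u2 w * ((1 + w * tau u1 u2 w) ^ 2 - 1) = u1 ^ 3 - 1 ∧
    kap u1 u2 w * ((1 + tau u1 u2 w) ^ 2 - 1) = u2 ^ 3 - 1 := by
  have h1 := h.den
  have h2 := h.tau0
  have h3 := h.tau2
  have hk : kap u1 u2 w * (tau u1 u2 w * (2 + tau u1 u2 w)) = u2 ^ 3 - 1 := by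
    rw [kap, div_mul_cancel₀ _ (mul_ne_zero h2 h3)]
  have ht : tau u1 u2 w * (w ^ 2 * (u2 ^ 3 - 1) - (u1 ^ 3 - 1)) =
      2 * ((u1 ^ 3 - 1) - w * (u2 ^ 3 - 1)) := by
    conv_lhs => rw [tau]
    rw [div_mul_cancel₀ _ h1]
  constructor
  · apply mul_right_cancel₀ h3
    apply mul_left_cancel₀ h2
    linear_combination (w * (2 + w * tau u1 u2 w) * tau u1 u2 w) * hk + (tau u1 u2 w) * ht
  · linear_combination hk

end Formulas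

/-! ### the group law in scaled coordinates -/

section Group

variable {F : Type*} [Field F] [CharZero F] [DecidableEq F]

/-- the constant of the curve -/
def bc (κ : F) : F := κ ^ 3 * (κ - 1)

lemma bc_ne {κ : F} (h0 : κ ≠ 0) (h1 : κ ≠ 1) : bc κ ≠ 0 :=
  mul_ne_zero (pow_ne_zero _ h0) (sub_ne_zero.mpr h1)

/-- `P` has scaled coordinates `X`, `Y` -/
def IsPt {κ : F} (P : (W (bc κ)).toAffine.Point) (X Y : F) : Prop :=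
  ∃ h : (W (bc κ)).toAffine.Nonsingular (κ * X) (κ ^ 2 * Y), P = Point.some _ _ h

lemma exists_pt {κ X Y : F} (h0 : κ ≠ 0) (h1 : κ ≠ 1) (h : κ * (Y ^ 2 - 1) = X ^ 3 - 1) :
    ∃ P : (W (bc κ)).toAffine.Point, IsPt P X Y := by
  refine ⟨Point.some _ _ (W_nonsing (bc_ne h0 h1) ?_), W_nonsing (bc_ne h0 h1) ?_, rfl⟩ <;>
  · rw [bc]
    linear_combination κ ^ 3 * h

variable {κ : F}

lemma IsPt.curve (h0 : κ ≠ 0) {P : (W (bc κ)).toAffine.Point} {X Y : F} (h : IsPt P X Y) :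
    κ * (Y ^ 2 - 1) = X ^ 3 - 1 := by
  obtain ⟨h1, -⟩ := h
  have h2 := W_eq h1
  rw [bc] at h2
  apply mul_left_cancel₀ (pow_ne_zero 3 h0)
  linear_combination h2

lemma IsPt.add (h0 : κ ≠ 0) {P Q : (W (bc κ)).toAffine.Point} {X1 Y1 X2 Y2 : F}
    (h1 : IsPt P X1 Y1) (h2 : IsPt Q X2 Y2) (h : X1 ≠ X2) :
    IsPt (P + Q) (addX κ X1 Y1 X2 Y2) (addY κ X1 Y1 X2 Y2) := by
  obtain ⟨n1, rfl⟩ := h1
  obtain ⟨n2, rfl⟩ := h2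
  have hne : κ * X1 ≠ κ * X2 := fun e => h (mul_left_cancel₀ h0 e)
  obtain ⟨X, Y, hn, e, hX, hY⟩ := add_ne n1 n2 hne
  have d : X1 - X2 ≠ 0 := sub_ne_zero.mpr h
  have hs : (κ ^ 2 * Y1 - κ ^ 2 * Y2) / (κ * X1 - κ * X2) = κ * ((Y1 - Y2) / (X1 - X2)) := by
    rw [← mul_sub, ← mul_sub]
    field_simp
  have hX' : X = κ * addX κ X1 Y1 X2 Y2 := by
    rw [hX, hs, addX]; ring
  have hY' : Y = κ ^ 2 * addY κ X1 Y1 X2 Y2 := by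
    rw [hY, hs, hX', addY]; ring
  subst hX'
  subst hY'
  exact ⟨hn, e⟩

lemma IsPt.neg (h0 : κ ≠ 0) (h1 : κ ≠ 1) {P : (W (bc κ)).toAffine.Point} {X Y : F}
    (h : IsPt P X Y) : IsPt (-P) X (-Y) := by
  obtain ⟨n1, rfl⟩ := h
  obtain ⟨hn, e⟩ := neg_pt (bc_ne h0 h1) n1
  have : -(κ ^ 2 * Y) = κ ^ 2 * (-Y) := by ring
  rw [e]
  refine ⟨by rwa [this] at hn, ?_⟩
  congr 1

lemma IsPt.unique (h0 : κ ≠ 0) {P : (W (bc κ)).toAffine.Point} {X Y X' Y' : F}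
    (h : IsPt P X Y) (h' : IsPt P X' Y') : X = X' ∧ Y = Y' := by
  obtain ⟨n1, rfl⟩ := h
  obtain ⟨n2, e⟩ := h'
  injection e with e1 e2
  exact ⟨mul_left_cancel₀ h0 e1, mul_left_cancel₀ (pow_ne_zero 2 h0) e2⟩

/-- one step of the map -/
lemma step {u1 u2 w : F} (h : ND u1 u2 w) (hκ : kap u1 u2 w = κ)
    {P Q R : (W (bc κ)).toAffine.Point} (hP : IsPt P u1 (1 + w * tau u1 u2 w))
    (hQ : IsPt Q u2 (1 + tau u1 u2 w)) (hR : IsPt R 1 1) :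
    IsPt (P + Q) (SX u1 u2 w) (SY u1 u2 w) ∧ IsPt (Q + R) (RX u1 u2 w) (RY u1 u2 w) ∧
    tau (SX u1 u2 w) (RX u1 u2 w) (TW u1 u2 w) = RY u1 u2 w - 1 ∧
    1 + TW u1 u2 w * tau (SX u1 u2 w) (RX u1 u2 w) (TW u1 u2 w) = SY u1 u2 w ∧
    kap (SX u1 u2 w) (RX u1 u2 w) (TW u1 u2 w) = κ := by
  have h0 : κ ≠ 0 := by rw [← hκ]; exact h.kap0
  have hS := hP.add h0 hQ h.h12
  have hT := hQ.add h0 hR h.h21
  have hS' : IsPt (P + Q) (SX u1 u2 w) (SY u1 u2 w) := by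
    rw [SX, SY, hκ]; exact hS
  have hT' : IsPt (Q + R) (RX u1 u2 w) (RY u1 u2 w) := by
    rw [RX, RY, hκ]; exact hT
  obtain ⟨r1, r2⟩ := recover h0 (hS'.curve h0) (hT'.curve h0) h.SY1 h.RY1 h.SR h.RY1'
  refine ⟨hS', hT', r1, ?_, r2⟩
  rw [TW] at *
  rw [r1]
  have : RY u1 u2 w - 1 ≠ 0 := sub_ne_zero.mpr h.RY1
  field_simp
  ring

/-- the inverse -/
lemma inverse {u1 u2 w : F} (h : ND u1 u2 w) (hκ : kap u1 u2 w = κ)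
    {P Q R : (W (bc κ)).toAffine.Point} (hP : IsPt P u1 (1 + w * tau u1 u2 w))
    (hQ : IsPt Q u2 (1 + tau u1 u2 w)) (hR : IsPt R 1 1) :
    u2 = addX κ (RX u1 u2 w) (RY u1 u2 w) 1 (-1) ∧
    1 + tau u1 u2 w = addY κ (RX u1 u2 w) (RY u1 u2 w) 1 (-1) ∧
    u1 = addX κ (SX u1 u2 w) (SY u1 u2 w) u2 (-(1 + tau u1 u2 w)) ∧
    1 + w * tau u1 u2 w = addY κ (SX u1 u2 w) (SY u1 u2 w) u2 (-(1 + tau u1 u2 w)) := by
  have h0 : κ ≠ 0 := by rw [← hκ]; exact h.kap0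
  have h1 : κ ≠ 1 := by rw [← hκ]; exact h.kap1
  obtain ⟨hS, hT, -⟩ := step h hκ hP hQ hR
  have e1 := hT.add h0 (hR.neg h0 h1) h.RX1
  rw [add_neg_cancel_right] at e1
  have e2 := hS.add h0 (hQ.neg h0 h1) h.SX2
  rw [add_neg_cancel_right] at e2
  obtain ⟨a1, a2⟩ := hQ.unique h0 e1
  obtain ⟨a3, a4⟩ := hP.unique h0 e2
  exact ⟨a1, a2, a3, a4⟩

end Group

end Pool.Agent.N890.DG.Form
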