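import Mathlib
import Pool.Agent.N890.DG.Ev
import Pool.Agent.N890.DG.Form

set_option autoImplicit false
set_option linter.unusedSectionVars false

/-! Values of the explicit formulas; the generic point is nondegenerate. -/

namespace Pool.Agent.N890.DG.EvForm

open MvPolynomial Ht Eval Form

section

variable {σ K F : Type*} [Field K] [Field F] [Algebra K F]
variable {a : σ → F} {u1 u2 w : L σ K} {c1 c2 c3 : F}

lemma ev_tau (h1 : Ev a u1 c1) (h2 : Ev a u2 c2) (h3 : Ev a w c3)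
    (h : c3 ^ 2 * (c2 ^ 3 - 1) - (c1 ^ 3 - 1) ≠ 0) : Ev a (tau u1 u2 w) (tau c1 c2 c3) :=
  (Ev.two.mul (((h1.pow 3).sub Ev.one).sub (h3.mul ((h2.pow 3).sub Ev.one)))).div
    (((h3.pow 2).mul ((h2.pow 3).sub Ev.one)).sub ((h1.pow 3).sub Ev.one)) h

lemma ev_kap (h1 : Ev a u1 c1) (h2 : Ev a u2 c2) (h3 : Ev a w c3)
    (h : c3 ^ 2 * (c2 ^ 3 - 1) - (c1 ^ 3 - 1) ≠ 0) (ht : tau c1 c2 c3 ≠ 0)
    (ht' : 2 + tau c1 c2 c3 ≠ 0) : Ev a (kap u1 u2 w) (kap c1 c2 c3) :=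
  ((h2.pow 3).sub Ev.one).div ((ev_tau h1 h2 h3 h).mul (Ev.two.add (ev_tau h1 h2 h3 h)))
    (mul_ne_zero ht ht')

lemma ev_addX {κ X1 Y1 X2 Y2 : L σ K} {k x1 y1 x2 y2 : F} (h0 : Ev a κ k) (h1 : Ev a X1 x1)
    (h2 : Ev a Y1 y1) (h3 : Ev a X2 x2) (h4 : Ev a Y2 y2) (h : x1 - x2 ≠ 0) :
    Ev a (addX κ X1 Y1 X2 Y2) (addX k x1 y1 x2 y2) :=
  ((h0.mul (((h2.sub h4).div (h1.sub h3) h).pow 2)).sub h1).sub h3

lemma ev_addY {κ X1 Y1 X2 Y2 : L σ K} {k x1 y1 x2 y2 : F} (h0 : Ev a κ k) (h1 : Ev a X1 x1)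
    (h2 : Ev a Y1 y1) (h3 : Ev a X2 x2) (h4 : Ev a Y2 y2) (h : x1 - x2 ≠ 0) :
    Ev a (addY κ X1 Y1 X2 Y2) (addY k x1 y1 x2 y2) :=
  (h2.add (((h2.sub h4).div (h1.sub h3) h).mul ((ev_addX h0 h1 h2 h3 h4 h).sub h1))).neg

lemma ev_nd (h1 : Ev a u1 c1) (h2 : Ev a u2 c2) (h3 : Ev a w c3) (h : ND c1 c2 c3) :
    Ev a (nd u1 u2 w) (nd c1 c2 c3) := by
  have ht := ev_tau h1 h2 h3 h.den
  have hk := ev_kap h1 h2 h3 h.den h.tau0 h.tau2
  have hy1 := Ev.one.add (h3.mul ht)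
  have hy2 := Ev.one.add ht
  have hSX : Ev a (SX u1 u2 w) (SX c1 c2 c3) :=
    ev_addX hk h1 hy1 h2 hy2 (sub_ne_zero.mpr h.h12)
  have hSY : Ev a (SY u1 u2 w) (SY c1 c2 c3) :=
    ev_addY hk h1 hy1 h2 hy2 (sub_ne_zero.mpr h.h12)
  have hRX : Ev a (RX u1 u2 w) (RX c1 c2 c3) :=
    ev_addX hk h2 hy2 Ev.one Ev.one (sub_ne_zero.mpr h.h21)
  have hRY : Ev a (RY u1 u2 w) (RY c1 c2 c3) :=
    ev_addY hk h2 hy2 Ev.one Ev.one (sub_ne_zero.mpr h.h21)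
  exact ((((((((((((((h3.pow 2).mul ((h2.pow 3).sub Ev.one)).sub ((h1.pow 3).sub Ev.one)).mul ht).mul
    (Ev.two.add ht)).mul hk).mul (hk.sub Ev.one)).mul (h1.sub h2)).mul (h2.sub Ev.one)).mul
    (hSY.sub Ev.one)).mul (hRY.sub Ev.one)).mul (hSY.sub hRY)).mul (hRY.add Ev.one)).mul
    (hRX.sub Ev.one)).mul (hSX.sub h2)

end

section Generic

variable (K : Type*) [Field K] [CharZero K]

lemma nd_num : ND (-1 : K) (1 / 2) 4 := by
  have ht : tau (-1 : K) (1 / 2) 4 = -1 / 4 := by norm_num [tau]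
  have hk : kap (-1 : K) (1 / 2) 4 = 2 := by norm_num [kap, ht]
  have hSX : SX (-1 : K) (1 / 2) 4 = 1 := by norm_num [SX, addX, hk, ht]
  have hSY : SY (-1 : K) (1 / 2) 4 = -1 := by norm_num [SY, addY, addX, hk, ht]
  have hRX : RX (-1 : K) (1 / 2) 4 = -1 := by norm_num [RX, addX, hk, ht]
  have hRY : RY (-1 : K) (1 / 2) 4 = 0 := by norm_num [RY, addY, addX, hk, ht]
  constructor <;> norm_num [ht, hk, hSX, hSY, hRX, hRY]

/-- the generic affine coordinates -/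
noncomputable def gu (i : Fin 3) : D0 (Fin 4) K :=
  ⟨ι (X i.succ) / ι (X 0), 1, PH.of_pair (isHomogeneous_X _ _) (isHomogeneous_X _ _)
    (X_ne_zero _) (div_mul_cancel₀ _ fun h => X_ne_zero (R := K) (0 : Fin 4)
      (ι_inj (by rw [h, map_zero])))⟩

lemma X0_ne : ι (X 0 : MvPolynomial (Fin 4) K) ≠ 0 := fun h => X_ne_zero (R := K) (0 : Fin 4)
      (ι_inj (by rw [h, map_zero]))

lemma gu_eq (i : Fin 3) : ((gu K i : D0 (Fin 4) K) : L (Fin 4) K) * ι (X 0) = ι (X i.succ) :=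
  div_mul_cancel₀ _ (X0_ne K)

variable {K}

lemma ev_gu {F : Type*} [Field F] [Algebra K F] (a : Fin 4 → F) (h : a 0 ≠ 0) (i : Fin 3) :
    Ev a ((gu K i : D0 (Fin 4) K) : L (Fin 4) K) (a i.succ / a 0) :=
  (Ev.var _).div (Ev.var _) h

variable (K)

theorem nd_gen : ND (gu K 0) (gu K 1) (gu K 2) := by
  rw [ND_iff]
  intro h
  have h1 := congrArg (D0 (Fin 4) K).subtype h
  rw [map_nd, map_zero] at h1
  have h2 := ev_gu (K := K) ![(1 : K), -1, 1 / 2, 4] (by simp)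
  have e0 := h2 0
  have e1 := h2 1
  have e2 := h2 2
  simp only [Fin.succ_zero_eq_one, Matrix.cons_val_one, Matrix.cons_val_zero, div_one] at e0
  have e1' : Ev ![(1 : K), -1, 1 / 2, 4] ((gu K 1 : D0 (Fin 4) K) : L (Fin 4) K) (1 / 2) := by
    have : (1 / 2 : K) = ![(1 : K), -1, 1 / 2, 4] (Fin.succ 1) / ![(1 : K), -1, 1 / 2, 4] 0 := by
      rw [show ![(1 : K), -1, 1 / 2, 4] (Fin.succ 1) = 1 / 2 from rfl,
        show ![(1 : K), -1, 1 / 2, 4] 0 = 1 from rfl, div_one]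
    rw [← this] at e1; exact e1
  have e2' : Ev ![(1 : K), -1, 1 / 2, 4] ((gu K 2 : D0 (Fin 4) K) : L (Fin 4) K) 4 := by
    have : (4 : K) = ![(1 : K), -1, 1 / 2, 4] (Fin.succ 2) / ![(1 : K), -1, 1 / 2, 4] 0 := by
      rw [show ![(1 : K), -1, 1 / 2, 4] (Fin.succ 2) = 4 from rfl,
        show ![(1 : K), -1, 1 / 2, 4] 0 = 1 from rfl, div_one]
    rw [← this] at e2; exact e2
  have h3 := ev_nd e0 e1' e2' (nd_num K)
  exact h3.ne_zero ((ND_iff _ _ _).mp (nd_num K)) h1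

end Generic

end Pool.Agent.N890.DG.EvForm
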