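import Mathlib
import Pool.Agent.N890.DG.Ht
import Pool.Agent.N890.DG.Ell

set_option autoImplicit false
set_option linter.unusedSectionVars false

/-! The degrees of the multiples of the tautological point on the quadratic twist of
`y ^ 2 = x ^ 3 - 1` by `t ^ 3 - 1` (Manin's elementary argument). -/

namespace Pool.Agent.N890.DG.Manin

open Polynomial Ht Ell WeierstrassCurve WeierstrassCurve.Affine

variable (K : Type*) [Field K] [CharZero K]

/-- the field of rational functions in one variable -/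
abbrev M : Type _ := FractionRing K[X]

variable {K}

/-- inclusion of the polynomials -/
noncomputable abbrev j : K[X] →+* M K := algebraMap K[X] (M K)

lemma j_inj : Function.Injective (j (K := K)) := IsFractionRing.injective _ _

instance : CharZero (M K) := charZero_of_injective_algebraMap (R := K[X]) j_inj

noncomputable instance : DecidableEq (M K) := Classical.decEq _

/-- `t ^ 3 - 1` -/
noncomputable def lam : K[X] := X ^ 3 - 1

lemma lam_ne : (lam : K[X]) ≠ 0 := by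
  intro h
  have := congrArg (Polynomial.eval 0) h
  simp [lam] at this

lemma jlam_ne : j (lam : K[X]) ≠ 0 := fun h => lam_ne (j_inj (by rw [h, map_zero]))

variable (K) in
/-- the constant term of the curve -/
noncomputable def bb : M K := -(j lam) ^ 3

lemma bb_ne : bb K ≠ 0 := neg_ne_zero.mpr (pow_ne_zero _ jlam_ne)

lemma Q_eq : (j ((lam : K[X]) ^ 2)) ^ 2 = (j (lam * X)) ^ 3 + bb K := by
  rw [bb, ← map_pow, ← map_pow, ← map_pow, ← sub_eq_add_neg, ← map_sub]
  congr 1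
  simp only [lam]
  ring

variable (K) in
/-- the tautological point -/
noncomputable def Q : (W (bb K)).toAffine.Point :=
  Point.some (j (lam * X)) (j (lam ^ 2)) (W_nonsing bb_ne Q_eq)

/-- `A / B` is the first coordinate of `P` in lowest terms -/
structure Rep (P : (W (bb K)).toAffine.Point) (A B : K[X]) : Prop where
  cop : IsCoprime A B
  rep : ∃ c : M K, c ≠ 0 ∧ j (lam * A) = c * P.xRep 0 ∧ j B = c * P.xRep 1

/-- `A / B` is the first coordinate of `m • Q` in lowest terms -/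
structure Good (m : ℕ) (A B : K[X]) : Prop extends Rep (m • Q K) A B where
  B0 : B ≠ 0
  degA : A.natDegree = m ^ 2
  degB : B.natDegree + 1 = m ^ 2
  lead : B.leadingCoeff = (m : K) ^ 2 * A.leadingCoeff

lemma Good.A0 {m : ℕ} {A B : K[X]} (h : Good m A B) : A ≠ 0 := by
  rintro rfl
  have h1 := h.degA
  have h2 := h.degB
  rw [natDegree_zero] at h1
  omega

lemma good_one : Good 1 (X : K[X]) 1 := by
  refine ⟨⟨isCoprime_one_right, 1, one_ne_zero, ?_, ?_⟩, one_ne_zero, by simp, by simp, by simp⟩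
  · rw [one_smul, Q, Point.xRep_some]; simp
  · rw [one_smul, Q, Point.xRep_some]; simp

/-- the quadratic forms of the addition map -/
noncomputable def r0 (A B : K[X]) : K[X] := (A - X * B) ^ 2
noncomputable def r1 (A B : K[X]) : K[X] := A ^ 2 * X ^ 2 + 4 * B * (A + X * B)
noncomputable def r2 (A B : K[X]) : K[X] := 2 * X * A * (A + X * B) - 4 * B ^ 2

lemma cop9 : IsCoprime (X ^ 4 + 8 * X : K[X]) (4 * (X ^ 3 - 1)) := by
  refine ⟨C (1 / 9) * X ^ 2, -C (1 / 36) * X ^ 3 - C (1 / 4), ?_⟩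
  have h4 : (4 : K[X]) = C 4 := by rw [map_ofNat]
  have h8 : (8 : K[X]) = C 8 := by rw [map_ofNat]
  have e1 : C (1 / 36 : K) * C 4 = C (1 / 9) := by rw [← map_mul]; norm_num
  have e2 : C (1 / 4 : K) * C 4 = 1 := by rw [← map_mul]; norm_num
  have e3 : C (1 / 9 : K) * C 8 = 1 - C (1 / 9) := by
    rw [← map_mul, ← C_1, ← map_sub]; norm_num
  rw [h4, h8]
  linear_combination (-(X ^ 3 * (X ^ 3 - 1))) * e1 - (X ^ 3 - 1) * e2 + X ^ 3 * e3

lemma cop_r {A B : K[X]} (h : IsCoprime A B) : Cop ![r1 A B, r2 A B, r0 A B] := by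
  apply Cop.exists_prime _ ⟨X, Polynomial.prime_X⟩
  intro p hp
  by_contra hcon
  push Not at hcon
  have h1 : p ∣ r1 A B := hcon 0
  have h2 : p ∣ r2 A B := hcon 1
  have h0 : p ∣ r0 A B := hcon 2
  have h3 : p ∣ A - X * B := hp.dvd_of_dvd_pow h0
  have h4 : p ∣ B ^ 2 * (X ^ 4 + 8 * X) := by
    have : B ^ 2 * (X ^ 4 + 8 * X) = r1 A B - (A - X * B) * (X ^ 2 * (A + X * B) + 4 * B) := by
      rw [r1]; ring
    rw [this]
    exact dvd_sub h1 (h3.mul_right _)
  have h5 : p ∣ B ^ 2 * (4 * (X ^ 3 - 1)) := by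
    have : B ^ 2 * (4 * (X ^ 3 - 1)) = r2 A B - (A - X * B) * (2 * X * (A + 2 * X * B)) := by
      rw [r2]; ring
    rw [this]
    exact dvd_sub h2 (h3.mul_right _)
  have hB : ¬ p ∣ B := by
    intro hB
    have hA : p ∣ A := by
      have : A = (A - X * B) + X * B := by ring
      rw [this]
      exact dvd_add h3 (hB.mul_left _)
    exact hp.not_isUnit (h.isUnit_of_dvd' hA hB)
  have h6 : p ∣ X ^ 4 + 8 * X := (hp.dvd_or_dvd h4).resolve_left fun h => hB (hp.dvd_of_dvd_pow h)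
  have h7 : p ∣ 4 * (X ^ 3 - 1) :=
    (hp.dvd_or_dvd h5).resolve_left fun h => hB (hp.dvd_of_dvd_pow h)
  exact hp.not_isUnit (cop9.isUnit_of_dvd' h6 h7)

/-- coprime representation of a nonzero vector -/
lemma exists_rep {x : Fin 2 → M K} (hx : x ≠ 0) : ∃ (A B : K[X]) (c : M K), c ≠ 0 ∧
    IsCoprime A B ∧ j (lam * A) = c * x 0 ∧ j B = c * x 1 := by
  classical
  -- clear denominators
  obtain ⟨⟨d, hd⟩, hint⟩ := IsLocalization.exist_integer_multiples_of_finite
    (nonZeroDivisors K[X]) ![x 0 / j lam, x 1]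
  obtain ⟨a, ha⟩ := hint 0
  obtain ⟨b, hb⟩ := hint 1
  have hd0 : j d ≠ 0 := fun h => nonZeroDivisors.ne_zero hd (j_inj (by rw [h, map_zero]))
  have ha' : j a = j d * (x 0 / j lam) := by
    have : algebraMap K[X] (M K) a = d • (x 0 / j lam) := ha
    rw [this, Algebra.smul_def]
  have hb' : j b = j d * x 1 := by
    have : algebraMap K[X] (M K) b = d • (x 1) := hb
    rw [this, Algebra.smul_def]
  have hab : ¬ (a = 0 ∧ b = 0) := by
    rintro ⟨rfl, rfl⟩
    apply hx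
    rw [map_zero] at ha' hb'
    funext i
    fin_cases i
    · have := (mul_eq_zero.mp ha'.symm).resolve_left hd0
      rw [div_eq_zero_iff] at this
      exact this.resolve_right jlam_ne
    · exact (mul_eq_zero.mp hb'.symm).resolve_left hd0
  set g := EuclideanDomain.gcd a b with hg
  have hg0 : g ≠ 0 := by
    intro h
    exact hab (EuclideanDomain.gcd_eq_zero_iff.mp h)
  obtain ⟨A, hA⟩ := EuclideanDomain.gcd_dvd_left a b
  obtain ⟨B, hB⟩ := EuclideanDomain.gcd_dvd_right a b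
  have hjg : j g ≠ 0 := fun h => hg0 (j_inj (by rw [h, map_zero]))
  refine ⟨A, B, j d * (j g)⁻¹, mul_ne_zero hd0 (inv_ne_zero hjg), ?_, ?_, ?_⟩
  · refine ⟨EuclideanDomain.gcdA a b, EuclideanDomain.gcdB a b, ?_⟩
    apply mul_left_cancel₀ hg0
    have h1 := EuclideanDomain.gcd_eq_gcd_ab a b
    rw [← hg] at h1 hA hB
    calc g * (EuclideanDomain.gcdA a b * A + EuclideanDomain.gcdB a b * B)
        = (g * A) * EuclideanDomain.gcdA a b + (g * B) * EuclideanDomain.gcdB a b := by ring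
      _ = g * 1 := by rw [← hA, ← hB, ← h1, mul_one]
  · apply mul_left_cancel₀ hjg
    rw [← hg] at hA
    have : j g * j (lam * A) = j lam * j a := by
      rw [← map_mul, ← map_mul]
      congr 1
      calc g * (lam * A) = lam * (g * A) := by ring
        _ = lam * a := by rw [← hA]
    rw [this, ha']
    have := jlam_ne (K := K)
    field_simp
  · apply mul_left_cancel₀ hjg
    rw [← hg] at hB
    rw [← map_mul, ← hB, hb']
    field_simp

lemma cop_pair {A B : K[X]} (h : IsCoprime A B) : Cop ![A, B] := by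
  intro G hG
  exact h.isUnit_of_dvd' (hG 0) (hG 1)

lemma rep_zero : Rep (0 : (W (bb K)).toAffine.Point) (1 : K[X]) 0 := by
  refine ⟨isCoprime_one_left, j lam, jlam_ne, ?_, ?_⟩
  · rw [Point.xRep_zero]; simp
  · rw [Point.xRep_zero]; simp

lemma step_rep {P : (W (bb K)).toAffine.Point} {A₁ B₁ A B : K[X]} (h₁ : Rep (P - Q K) A₁ B₁)
    (h : Rep P A B) : ∃ A₂ B₂ : K[X], Rep (P + Q K) A₂ B₂ ∧ r1 A B = A₂ * A₁ ∧
      r2 A B = A₂ * B₁ + B₂ * A₁ ∧ r0 A B = B₂ * B₁ := by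
  obtain ⟨A₂, B₂, c₂, hc₂, hcop₂, e₂, e₂'⟩ := exists_rep (Point.xRep_ne_zero (P + Q K))
  obtain ⟨hcop₁, c₁, hc₁, e₁, e₁'⟩ := h₁
  obtain ⟨hcop, c, hc, e, e'⟩ := h
  obtain ⟨s, hs, hadd⟩ := addSub bb_ne P (Q K)
  have hlam := jlam_ne (K := K)
  have hQ0 : (Q K).xRep 0 = j (lam * X) := by rw [Q, Point.xRep_some]; rfl
  have hQ1 : (Q K).xRep 1 = 1 := by rw [Q, Point.xRep_some]; rfl
  have a0 : P.sym2x (Q K) 0 = P.xRep 0 * j (lam * X) := by
    rw [← hQ0]; rfl
  have a1 : P.sym2x (Q K) 1 = P.xRep 0 + P.xRep 1 * j (lam * X) := by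
    rw [← hQ0, ← mul_one (P.xRep 0), ← hQ1]
    rw [show P.xRep 0 * (Q K).xRep 1 + P.xRep 1 * (Q K).xRep 0 =
      P.xRep 0 * (Q K).xRep 1 + P.xRep 1 * (Q K).xRep 0 from rfl]
    rfl
  have a2 : P.sym2x (Q K) 2 = P.xRep 1 := by
    rw [← mul_one (P.xRep 1), ← hQ1]; rfl
  have s0 : (P + Q K).sym2x (P - Q K) 0 = (P + Q K).xRep 0 * (P - Q K).xRep 0 := rfl
  have s1 : (P + Q K).sym2x (P - Q K) 1 = (P + Q K).xRep 0 * (P - Q K).xRep 1 +
    (P + Q K).xRep 1 * (P - Q K).xRep 0 := rfl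
  have s2 : (P + Q K).sym2x (P - Q K) 2 = (P + Q K).xRep 1 * (P - Q K).xRep 1 := rfl
  have b0 := congrFun hadd 0
  have b1 := congrFun hadd 1
  have b2 := congrFun hadd 2
  simp only [asm, Pi.smul_apply, smul_eq_mul, s0, s1, s2, a0, a1, a2] at b0 b1 b2
  simp only [Matrix.cons_val_zero, Matrix.cons_val_one, Matrix.cons_val] at b0 b1 b2
  rw [map_mul] at e e₁ e₂
  have hlX : j (lam * X : K[X]) = j lam * j X := map_mul _ _ _
  have hbb : bb K = -(j lam) ^ 3 := rfl
  rw [hlX] at b0 b1 b2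
  have hc21 : c₂ * c₁ ≠ 0 := mul_ne_zero hc₂ hc₁
  have hl2 : j (lam : K[X]) ^ 2 ≠ 0 := pow_ne_zero _ hlam
  generalize P.xRep 0 = p0 at *
  generalize P.xRep 1 = p1 at *
  generalize hq0 : (P + Q K).xRep 0 = q0 at *
  generalize hq1 : (P + Q K).xRep 1 = q1 at *
  generalize (P - Q K).xRep 0 = n0 at *
  generalize (P - Q K).xRep 1 = n1 at *
  rw [hbb] at b0 b1
  have k1 : c₂ * c₁ * j lam ^ 2 * j (r1 A B) = c ^ 2 * s * j (A₂ * A₁) := by
    have g0 : (c * p0) ^ 2 * (j lam * j X) ^ 2 + 4 * j lam ^ 3 * ((c * p0) +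
        (c * p1) * (j lam * j X)) * (c * p1) = c ^ 2 * s * (q0 * n0) := by
      linear_combination c ^ 2 * b0
    rw [← e, ← e'] at g0
    have g1 : c₂ * c₁ * ((j lam * j A) ^ 2 * (j lam * j X) ^ 2 + 4 * j lam ^ 3 * ((j lam * j A) +
        (j B) * (j lam * j X)) * (j B)) = c ^ 2 * s * ((c₂ * q0) * (c₁ * n0)) := by
      linear_combination c₂ * c₁ * g0
    rw [← e₁, ← e₂] at g1
    apply mul_left_cancel₀ hl2
    rw [r1]
    simp only [map_add, map_mul, map_pow, map_ofNat]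
    linear_combination g1
  have k2 : c₂ * c₁ * j lam ^ 2 * j (r2 A B) = c ^ 2 * s * j (A₂ * B₁ + B₂ * A₁) := by
    have g0 : 2 * ((c * p0) + (c * p1) * (j lam * j X)) * ((c * p0) * (j lam * j X)) -
        4 * j lam ^ 3 * (c * p1) ^ 2 = c ^ 2 * s * (q0 * n1 + q1 * n0) := by
      linear_combination c ^ 2 * b1
    rw [← e, ← e'] at g0
    have g1 : c₂ * c₁ * (2 * ((j lam * j A) + (j B) * (j lam * j X)) *
        ((j lam * j A) * (j lam * j X)) - 4 * j lam ^ 3 * (j B) ^ 2) =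
        c ^ 2 * s * ((c₂ * q0) * (c₁ * n1) + (c₂ * q1) * (c₁ * n0)) := by
      linear_combination c₂ * c₁ * g0
    rw [← e₁, ← e₂, ← e₁', ← e₂'] at g1
    apply mul_left_cancel₀ hlam
    rw [r2]
    simp only [map_add, map_sub, map_mul, map_pow, map_ofNat]
    linear_combination g1
  have k0 : c₂ * c₁ * j lam ^ 2 * j (r0 A B) = c ^ 2 * s * j (B₂ * B₁) := by
    have g0 : ((c * p0) + (c * p1) * (j lam * j X)) ^ 2 - 4 * ((c * p0) * (j lam * j X)) *
        (c * p1) = c ^ 2 * s * (q1 * n1) := by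
      linear_combination c ^ 2 * b2
    rw [← e, ← e'] at g0
    have g1 : c₂ * c₁ * (((j lam * j A) + (j B) * (j lam * j X)) ^ 2 -
        4 * ((j lam * j A) * (j lam * j X)) * (j B)) =
        c ^ 2 * s * ((c₂ * q1) * (c₁ * n1)) := by
      linear_combination c₂ * c₁ * g0
    rw [← e₁', ← e₂'] at g1
    rw [r0]
    simp only [map_sub, map_mul, map_pow]
    linear_combination g1
  have hcs : c ^ 2 * s ≠ 0 := mul_ne_zero (pow_ne_zero _ hc) hs
  have hv : Cop ![A₂ * A₁, A₂ * B₁ + B₂ * A₁, B₂ * B₁] :=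
    cop_sym2 (A := ![A₂, B₂]) (B := ![A₁, B₁]) (cop_pair hcop₂) (cop_pair hcop₁)
      ⟨X, Polynomial.prime_X⟩
  have hr := cop_r hcop
  have hcross : ∀ i, c₂ * c₁ * j lam ^ 2 * j (![r1 A B, r2 A B, r0 A B] i) =
      c ^ 2 * s * j (![A₂ * A₁, A₂ * B₁ + B₂ * A₁, B₂ * B₁] i) := by
    intro i
    fin_cases i
    exacts [k1, k2, k0]
  obtain ⟨g, hg⟩ := dvd_of_cross hv (B := ![r1 A B, r2 A B, r0 A B]) (fun i k => j_inj (by
    apply mul_left_cancel₀ hcs
    rw [map_mul, map_mul, ← mul_assoc, ← hcross, ← mul_assoc, ← hcross]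
    ring))
  have hgu : IsUnit g := hr g fun i => ⟨_, by rw [hg i, mul_comm]⟩
  have hg0 : g ≠ 0 := hgu.ne_zero
  have hjg : j g ≠ 0 := fun h => hg0 (j_inj (by rw [h, map_zero]))
  have h0 : r1 A B = A₂ * A₁ * g := hg 0
  have h1 : r2 A B = (A₂ * B₁ + B₂ * A₁) * g := hg 1
  have h2 : r0 A B = B₂ * B₁ * g := hg 2
  refine ⟨A₂ * g, B₂ * g, ⟨?_, c₂ * j g, mul_ne_zero hc₂ hjg, ?_, ?_⟩, ?_, ?_, ?_⟩
  · exact (isCoprime_mul_unit_right hgu A₂ B₂).mpr hcop₂
  · rw [← mul_assoc, map_mul, map_mul, e₂, hq0]; ring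
  · rw [map_mul, e₂', hq1]; ring
  · rw [h0]; ring
  · rw [h1]; ring
  · rw [h2]; ring

lemma good_two : ∃ A B : K[X], Good 2 A B := by
  have h0 : Rep (Q K - Q K) (1 : K[X]) 0 := by rw [sub_self]; exact rep_zero
  have h1 : Rep (Q K) (X : K[X]) 1 := by
    have := (good_one (K := K)).toRep
    rwa [one_smul] at this
  obtain ⟨A₂, B₂, hrep, e1, e2, -⟩ := step_rep h0 h1
  have eA : A₂ = X ^ 4 + 8 * X := by rw [mul_one] at e1; rw [← e1, r1]; ring
  have eB : B₂ = 4 * X ^ 3 - 4 := by rw [mul_zero, zero_add, mul_one] at e2; rw [← e2, r2]; ring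
  have h4 : (4 : K[X]) = C 4 := by rw [map_ofNat]
  have h8 : (8 : K[X]) = C 8 := by rw [map_ofNat]
  have dA : A₂.natDegree = 4 := by
    rw [eA, h8]; compute_degree!
  have dB : B₂.natDegree = 3 := by
    rw [eB, h4]; compute_degree!
  refine ⟨A₂, B₂, ⟨?_, ?_, ?_, ?_, ?_⟩⟩
  · rw [two_nsmul]; exact hrep
  · intro h
    rw [h, natDegree_zero] at dB
    omega
  · rw [dA]; norm_num
  · rw [dB]; norm_num
  · rw [leadingCoeff, leadingCoeff, dA, dB, eA, eB, h4, h8]
    simp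
    norm_num

lemma good_step {m : ℕ} (hm : 1 ≤ m) {A₁ B₁ A B : K[X]} (h₁ : Good m A₁ B₁)
    (h : Good (m + 1) A B) : ∃ A₂ B₂ : K[X], Good (m + 2) A₂ B₂ := by
  have h₁' : Rep ((m + 1) • Q K - Q K) A₁ B₁ := by
    rw [succ_nsmul, add_sub_cancel_right]
    exact h₁.toRep
  obtain ⟨A₂, B₂, hrep, e1, -, e0⟩ := step_rep h₁' h.toRep
  rw [← succ_nsmul] at hrep
  have hA0 := h.A0
  have hB0 := h.B0
  have hA₁0 := h₁.A0
  have hB₁0 := h₁.B0
  have hAl : A.leadingCoeff ≠ 0 := leadingCoeff_ne_zero.mpr hA0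
  have hA₁l : A₁.leadingCoeff ≠ 0 := leadingCoeff_ne_zero.mpr hA₁0
  have dA := h.degA
  have dB := h.degB
  have dA₁ := h₁.degA
  have dB₁ := h₁.degB
  have lB := h.lead
  have lB₁ := h₁.lead
  -- `A - X B`
  have hXB : (X * B).natDegree = (m + 1) ^ 2 := by
    rw [natDegree_X_mul hB0, dB]
  have hm1 : ((m + 1 : ℕ) : K) ^ 2 - 1 ≠ 0 := by
    have : ((m + 1 : ℕ) : K) ^ 2 - 1 = ((m * (m + 2) : ℕ) : K) := by push_cast; ring
    rw [this]
    exact_mod_cast (by positivity : m * (m + 2) ≠ 0)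
  have cD : (A - X * B).coeff ((m + 1) ^ 2) = A.leadingCoeff * (1 - ((m + 1 : ℕ) : K) ^ 2) := by
    rw [coeff_sub]
    have h1 : A.coeff ((m + 1) ^ 2) = A.leadingCoeff := by rw [leadingCoeff, dA]
    have h2 : (X * B).coeff ((m + 1) ^ 2) = B.leadingCoeff := by
      rw [← hXB, coeff_natDegree, leadingCoeff_mul, leadingCoeff_X, one_mul]
    rw [h1, h2, lB]
    ring
  have cD0 : (A - X * B).coeff ((m + 1) ^ 2) ≠ 0 := by
    rw [cD]
    refine mul_ne_zero hAl ?_
    intro h3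
    apply hm1
    linear_combination -h3
  have dD : (A - X * B).natDegree = (m + 1) ^ 2 := by
    apply le_antisymm
    · refine (natDegree_sub_le _ _).trans ?_
      rw [dA, hXB, max_self]
    · exact le_natDegree_of_ne_zero cD0
  have lD : (A - X * B).leadingCoeff = A.leadingCoeff * (1 - ((m + 1 : ℕ) : K) ^ 2) := by
    rw [leadingCoeff, dD, cD]
  have hD0 : A - X * B ≠ 0 := by
    intro h3
    rw [h3, coeff_zero] at cD0
    exact cD0 rfl
  -- the denominators
  rw [r0] at e0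
  have hB₂0 : B₂ ≠ 0 := by
    rintro rfl
    rw [zero_mul] at e0
    exact pow_ne_zero 2 hD0 e0
  have d0 : 2 * (m + 1) ^ 2 = B₂.natDegree + B₁.natDegree := by
    rw [← natDegree_mul hB₂0 hB₁0, ← e0, natDegree_pow, dD]
  have l0 : (A.leadingCoeff * (1 - ((m + 1 : ℕ) : K) ^ 2)) ^ 2 =
      B₂.leadingCoeff * B₁.leadingCoeff := by
    rw [← leadingCoeff_mul, ← e0, leadingCoeff_pow, lD]
  -- the numerators
  have dr1 : (r1 A B).natDegree = 2 * (m + 1) ^ 2 + 2 ∧
      (r1 A B).leadingCoeff = A.leadingCoeff ^ 2 := by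
    have h1 : (A ^ 2 * X ^ 2).natDegree = 2 * (m + 1) ^ 2 + 2 := by
      rw [natDegree_mul (pow_ne_zero _ hA0) (pow_ne_zero _ X_ne_zero), natDegree_pow,
        natDegree_pow, natDegree_X, dA]
    have h2 : (4 * B * (A + X * B)).natDegree < 2 * (m + 1) ^ 2 + 2 := by
      have h4 : (4 : K[X]) = C 4 := by rw [map_ofNat]
      have h5 : (4 * B).natDegree ≤ B.natDegree := by rw [h4]; exact natDegree_C_mul_le _ _
      have h6 : (A + X * B).natDegree ≤ (m + 1) ^ 2 := by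
        refine (natDegree_add_le _ _).trans ?_
        rw [dA, hXB, max_self]
      have h7 : (4 * B * (A + X * B)).natDegree ≤ B.natDegree + (m + 1) ^ 2 :=
        natDegree_mul_le.trans (add_le_add h5 h6)
      omega
    have h3 : (4 * B * (A + X * B)).degree < (A ^ 2 * X ^ 2).degree := by
      apply degree_lt_degree
      rw [h1]
      exact h2
    constructor
    · rw [r1, natDegree_add_eq_left_of_degree_lt h3, h1]
    · rw [r1, leadingCoeff_add_of_degree_lt' h3, leadingCoeff_mul, leadingCoeff_pow,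
        leadingCoeff_pow, leadingCoeff_X, one_pow, mul_one]
  have hA₂0 : A₂ ≠ 0 := by
    rintro rfl
    rw [zero_mul] at e1
    rw [e1, leadingCoeff_zero] at dr1
    exact pow_ne_zero 2 hAl dr1.2.symm
  have d1 : 2 * (m + 1) ^ 2 + 2 = A₂.natDegree + A₁.natDegree := by
    rw [← natDegree_mul hA₂0 hA₁0, ← e1, dr1.1]
  have l1 : A.leadingCoeff ^ 2 = A₂.leadingCoeff * A₁.leadingCoeff := by
    rw [← leadingCoeff_mul, ← e1, dr1.2]
  refine ⟨A₂, B₂, ⟨hrep, hB₂0, ?_, ?_, ?_⟩⟩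
  · rw [dA₁] at d1
    nlinarith
  · have : B₂.natDegree + (B₁.natDegree + 1) = 2 * (m + 1) ^ 2 + 1 := by omega
    rw [dB₁] at this
    nlinarith
  · rw [lB₁] at l0
    have hmK : (m : K) ≠ 0 := by exact_mod_cast (by omega : m ≠ 0)
    have h5 : (m : K) ^ 2 * A₁.leadingCoeff ≠ 0 := mul_ne_zero (pow_ne_zero _ hmK) hA₁l
    apply mul_right_cancel₀ h5
    rw [← l0]
    push_cast
    linear_combination (((m : K) + 2) ^ 2 * (m : K) ^ 2) * l1

theorem good (m : ℕ) (hm : 1 ≤ m) : ∃ A B : K[X], Good m A B := by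
  have key : ∀ m : ℕ, 1 ≤ m → (∃ A B : K[X], Good m A B) ∧ (∃ A B : K[X], Good (m + 1) A B) := by
    intro m hm
    induction m, hm using Nat.le_induction with
    | base => exact ⟨⟨_, _, good_one⟩, good_two⟩
    | succ m hm ih =>
      obtain ⟨⟨A₁, B₁, h₁⟩, ⟨A, B, h⟩⟩ := ih
      exact ⟨⟨A, B, h⟩, good_step hm h₁ h⟩
  exact (key m hm).1

end Pool.Agent.N890.DG.Manin
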