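import Mathlib
import Pool.Agent.N890.DG.Ht
import Pool.Agent.N890.DG.Ell

set_option autoImplicit false
set_option linter.unusedSectionVars false

/-! One half of the parallelogram law for the degree height on `y ^ 2 = x ^ 3 + b`. -/

namespace Pool.Agent.N890.DG.Par

open MvPolynomial Ht Ell WeierstrassCurve WeierstrassCurve.Affine

variable {σ K : Type*} [Field K] [CharZero K] [Nonempty σ]

instance : CharZero (L σ K) := charZero_of_injective_algebraMap
  (R := MvPolynomial σ K) (IsFractionRing.injective _ _)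

instance : CharZero (D0 σ K) := by
  refine ⟨fun m n h => ?_⟩
  have : ((m : D0 σ K) : L σ K) = ((n : D0 σ K) : L σ K) := by rw [h]
  push_cast at this
  exact_mod_cast this

noncomputable instance : DecidableEq (D0 σ K) := Classical.decEq _

/-- points of the curve -/
abbrev Pt (b : D0 σ K) : Type _ := (W b).toAffine.Point

variable {b : D0 σ K}

/-- the vector of the first coordinate -/
noncomputable def xv (P : Pt b) : Fin 2 → L σ K := fun i => ((P.xRep i : D0 σ K) : L σ K)

/-- the height of a point -/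
noncomputable def hp (P : Pt b) : ℕ := ph (xv P)

lemma xv_ne (P : Pt b) : xv P ≠ 0 := by
  intro h
  apply Point.xRep_ne_zero P
  funext i
  have h1 : ((P.xRep i : D0 σ K) : L σ K) = ((0 : D0 σ K) : L σ K) := congrFun h i
  exact Subtype.ext h1

lemma xv_mem (P : Pt b) : PH (xv P) (∑ i, ht (xv P i)) :=
  PH_of_mem fun i => (P.xRep i).2

lemma hp_zero : hp (0 : Pt b) = 0 := by
  apply Nat.le_zero.mp
  refine ph_le ⟨![1, 0], 1, one_ne_zero, ?_, ?_⟩
  · intro i
    fin_cases i
    · exact isHomogeneous_one _ _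
    · exact isHomogeneous_zero _ _ _
  · intro i
    fin_cases i <;> simp [xv]

lemma hp_neg (P : Pt b) : hp (-P) = hp P := by
  unfold hp xv
  rw [Point.xRep_neg]

lemma sym2_eq (P Q : Pt b) : (fun i => ((P.sym2x Q i : D0 σ K) : L σ K)) =
    ![xv P 0 * xv Q 0, xv P 0 * xv Q 1 + xv P 1 * xv Q 0, xv P 1 * xv Q 1] := by
  funext i
  fin_cases i <;> simp [Point.sym2x, xv]

lemma ph_sym (P Q : Pt b) : ph (fun i => ((P.sym2x Q i : D0 σ K) : L σ K)) = hp P + hp Q := by
  rw [sym2_eq, ph_sym2 (xv_mem P) (xv_mem Q) (xv_ne P) (xv_ne Q)]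
  rfl

theorem par (hb : b ≠ 0) (P Q : Pt b) :
    hp (P + Q) + hp (P - Q) ≤ 2 * hp P + 2 * hp Q + ht (b : L σ K) := by
  obtain ⟨t, ht0, e⟩ := addSub hb P Q
  rw [← ph_sym]
  have h1 : PH (fun i => ((P.sym2x Q i : D0 σ K) : L σ K)) (hp P + hp Q) := by
    have h2 : PH (fun i => ((P.sym2x Q i : D0 σ K) : L σ K))
        (∑ i, ht ((P.sym2x Q i : D0 σ K) : L σ K)) := PH_of_mem fun i => (P.sym2x Q i).2
    have := h2.self
    rwa [ph_sym] at this
  obtain ⟨S, c, hc, hS, hSv⟩ := h1
  obtain ⟨b1, b0, hb1, hb0, hb00, hbb⟩ := (D0_self b.2).pair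
  have hι : ι b0 ≠ 0 := fun h1 => hb00 (ι_inj (by rw [h1, map_zero]))
  have h3 : PH (fun i => ((asm b (P.sym2x Q) i : D0 σ K) : L σ K))
      (2 * (hp P + hp Q) + ht (b : L σ K)) := by
    refine ⟨![b0 * S 0 ^ 2 - 4 * b1 * S 1 * S 2, 2 * b0 * S 1 * S 0 + 4 * b1 * S 2 ^ 2,
      b0 * S 1 ^ 2 - 4 * b0 * S 0 * S 2], c ^ 2 * ι b0, mul_ne_zero (pow_ne_zero _ hc) hι, ?_, ?_⟩
    · have hcast : ∀ {p : MvPolynomial σ K} {d d' : ℕ}, p.IsHomogeneous d → d = d' →
          p.IsHomogeneous d' := fun h e => e ▸ h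
      have hC2 : ∀ (p : MvPolynomial σ K) (d : ℕ), p.IsHomogeneous d →
          (2 * p).IsHomogeneous d := by
        intro p d hp
        have h4 : (2 : MvPolynomial σ K) = C (2 : K) := by rw [map_ofNat]
        rw [h4]
        exact hp.C_mul _
      have hC4 : ∀ (p : MvPolynomial σ K) (d : ℕ), p.IsHomogeneous d →
          (4 * p).IsHomogeneous d := by
        intro p d hp
        have h4 : (4 : MvPolynomial σ K) = C (4 : K) := by rw [map_ofNat]
        rw [h4]
        exact hp.C_mul _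
      intro i
      fin_cases i
      · change (b0 * S 0 ^ 2 - 4 * b1 * S 1 * S 2).IsHomogeneous _
        refine IsHomogeneous.sub ?_ ?_
        · exact hcast (hb0.mul ((hS 0).pow 2)) (by ring)
        · exact hcast (((hC4 b1 _ hb1).mul (hS 1)).mul (hS 2)) (by ring)
      · change (2 * b0 * S 1 * S 0 + 4 * b1 * S 2 ^ 2).IsHomogeneous _
        refine IsHomogeneous.add ?_ ?_
        · exact hcast (((hC2 b0 _ hb0).mul (hS 1)).mul (hS 0)) (by ring)
        · exact hcast ((hC4 b1 _ hb1).mul ((hS 2).pow 2)) (by ring)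
      · change (b0 * S 1 ^ 2 - 4 * b0 * S 0 * S 2).IsHomogeneous _
        refine IsHomogeneous.sub ?_ ?_
        · exact hcast (hb0.mul ((hS 1).pow 2)) (by ring)
        · exact hcast (((hC4 b0 _ hb0).mul (hS 0)).mul (hS 2)) (by ring)
    · have e4 : ((4 : D0 σ K) : L σ K) = 4 := rfl
      have e2 : ((2 : D0 σ K) : L σ K) = 2 := rfl
      intro i
      fin_cases i
      · change ι (b0 * S 0 ^ 2 - 4 * b1 * S 1 * S 2) = c ^ 2 * ι b0 *
          (((P.sym2x Q 0) ^ 2 - 4 * b * (P.sym2x Q 1) * (P.sym2x Q 2) : D0 σ K) : L σ K)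
        simp only [map_sub, map_mul, map_pow, map_ofNat, hSv, ← hbb]
        push_cast
        try rw [e4]
        try rw [e2]
        ring
      · change ι (2 * b0 * S 1 * S 0 + 4 * b1 * S 2 ^ 2) = c ^ 2 * ι b0 *
          ((2 * (P.sym2x Q 1) * (P.sym2x Q 0) + 4 * b * (P.sym2x Q 2) ^ 2 : D0 σ K) : L σ K)
        simp only [map_add, map_mul, map_pow, map_ofNat, hSv, ← hbb]
        push_cast
        try rw [e4]
        try rw [e2]
        ring
      · change ι (b0 * S 1 ^ 2 - 4 * b0 * S 0 * S 2) = c ^ 2 * ι b0 *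
          (((P.sym2x Q 1) ^ 2 - 4 * (P.sym2x Q 0) * (P.sym2x Q 2) : D0 σ K) : L σ K)
        simp only [map_sub, map_mul, map_pow, map_ofNat, hSv]
        push_cast
        try rw [e4]
        try rw [e2]
        ring
  rw [e] at h3
  have h5 : (fun i => (((t • (P + Q).sym2x (P - Q)) i : D0 σ K) : L σ K)) =
      (t : L σ K) • fun i => (((P + Q).sym2x (P - Q) i : D0 σ K) : L σ K) := by
    funext i
    simp
  rw [h5, PH.smul_iff (by exact_mod_cast ht0)] at h3
  have := ph_le h3
  omega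

theorem hp_add (hb : b ≠ 0) (P Q : Pt b) :
    hp (P + Q) ≤ 2 * hp P + 2 * hp Q + ht (b : L σ K) := by
  have := par hb P Q
  omega

theorem hp_sub (hb : b ≠ 0) (P Q : Pt b) :
    hp (P - Q) ≤ 2 * hp P + 2 * hp Q + ht (b : L σ K) := by
  have := par hb P Q
  omega

theorem hp_nsmul (hb : b ≠ 0) (P : Pt b) (n : ℕ) :
    hp (n • P) ≤ n ^ 2 * (hp P + ht (b : L σ K)) := by
  set C := ht (b : L σ K)
  have key : ∀ n : ℕ, (hp ((n + 1) • P) : ℤ) - hp (n • P) ≤ hp P + n * (2 * hp P + C) := by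
    intro n
    induction n with
    | zero => simp [hp_zero]
    | succ n ih =>
      have h1 := par hb ((n + 1) • P) P
      have h2 : (n + 1) • P + P = (n + 1 + 1) • P := (succ_nsmul _ _).symm
      have h3 : (n + 1) • P - P = n • P := by rw [succ_nsmul, add_sub_cancel_right]
      rw [h2, h3] at h1
      have h4 : ((hp ((n + 1 + 1) • P) : ℤ)) + hp (n • P) ≤
          2 * hp ((n + 1) • P) + 2 * hp P + C := by exact_mod_cast h1
      push_cast
      linarith
  have key2 : ∀ n : ℕ, (hp (n • P) : ℤ) ≤ n ^ 2 * (hp P + C) := by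
    intro n
    induction n with
    | zero => simp [hp_zero]
    | succ n ih =>
      have h1 := key n
      have h2 : (0 : ℤ) ≤ n := by positivity
      have h3 : (0 : ℤ) ≤ hp P := by positivity
      have h4 : (0 : ℤ) ≤ C := by positivity
      push_cast
      nlinarith [mul_nonneg h2 h4]
  exact_mod_cast key2 n

end Pool.Agent.N890.DG.Par
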