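import Mathlib
import Pool.Agent.N890.DG.Par
import Pool.Agent.N890.DG.Manin
import Pool.Agent.N890.DG.EvForm

set_option autoImplicit false
set_option linter.unusedSectionVars false

/-! The heights of the multiples of the third point grow quadratically. -/

namespace Pool.Agent.N890.DG.Low

open Polynomial Ht Eval Form EvForm Ell Par Manin WeierstrassCurve WeierstrassCurve.Affine

variable (K : Type*) [Field K] [CharZero K]

/-- the parameter of the generic curve -/
noncomputable def kg : D0 (Fin 4) K := kap (gu K 0) (gu K 1) (gu K 2)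

lemma kg0 : kg K ≠ 0 := (nd_gen K).kap0
lemma kg1 : kg K ≠ 1 := (nd_gen K).kap1

/-- the special line -/
noncomputable def cv : Fin 4 → K[X] := ![X, X, 1, 2 * X]

/-- the special line as a point over the function field -/
noncomputable def cM : Fin 4 → M K := fun i => j (cv K i)

lemma jX_ne : j (X : K[X]) ≠ 0 := fun h => X_ne_zero (j_inj (by rw [h, map_zero]))

lemma cM0 : cM K 0 ≠ 0 := jX_ne K

lemma ev_gu0 : Ev (cM K) ((gu K 0 : D0 (Fin 4) K) : L (Fin 4) K) 1 := by
  have h := ev_gu (K := K) (cM K) (cM0 K) 0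
  have : cM K (Fin.succ 0) / cM K 0 = 1 := div_self (jX_ne K)
  rwa [this] at h

lemma ev_gu1 : Ev (cM K) ((gu K 1 : D0 (Fin 4) K) : L (Fin 4) K) (1 / j X) := by
  have h := ev_gu (K := K) (cM K) (cM0 K) 1
  have : cM K (Fin.succ 1) / cM K 0 = 1 / j X := by
    change j (1 : K[X]) / j X = _
    rw [map_one]
  rwa [this] at h

lemma ev_gu2 : Ev (cM K) ((gu K 2 : D0 (Fin 4) K) : L (Fin 4) K) 2 := by
  have h := ev_gu (K := K) (cM K) (cM0 K) 2
  have : cM K (Fin.succ 2) / cM K 0 = 2 := by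
    change j (2 * X : K[X]) / j X = _
    rw [map_mul, map_ofNat, mul_div_assoc, div_self (jX_ne K), mul_one]
  rwa [this] at h

lemma jlam : j (lam : K[X]) = j X ^ 3 - 1 := by
  rw [lam, map_sub, map_pow, map_one]

lemma ev_kg : Ev (cM K) ((kg K : D0 (Fin 4) K) : L (Fin 4) K) (j lam / j X ^ 3) := by
  have hX := jX_ne K
  have hl := jlam_ne (K := K)
  have hb : (1 / j (X : K[X])) ^ 3 - 1 = -(j lam) / j X ^ 3 := by
    rw [jlam]; field_simp; ring
  have hb0 : (1 / j (X : K[X])) ^ 3 - 1 ≠ 0 := by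
    rw [hb]; exact div_ne_zero (neg_ne_zero.mpr hl) (pow_ne_zero _ hX)
  have hden : (2 : M K) ^ 2 * ((1 / j X) ^ 3 - 1) - (1 ^ 3 - 1) ≠ 0 := by
    rw [one_pow, sub_self, sub_zero]
    exact mul_ne_zero (by norm_num) hb0
  have ht : tau (1 : M K) (1 / j X) 2 = -1 := by
    rw [tau, div_eq_iff hden]; ring
  have hk : kap (1 : M K) (1 / j X) 2 = j lam / j X ^ 3 := by
    rw [kap, ht, hb]; ring
  have h := ev_kap (ev_gu0 K) (ev_gu1 K) (ev_gu2 K) hden (by rw [ht]; norm_num)
    (by rw [ht]; norm_num)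
  rw [hk] at h
  have e : ((kg K : D0 (Fin 4) K) : L (Fin 4) K) = kap ((gu K 0 : D0 (Fin 4) K) : L (Fin 4) K)
      ((gu K 1 : D0 (Fin 4) K) : L (Fin 4) K) ((gu K 2 : D0 (Fin 4) K) : L (Fin 4) K) :=
    map_kap (D0 (Fin 4) K).subtype _ _ _
  rw [e]
  exact h

variable {K}

lemma Good.x_ne {m : ℕ} (hm : 2 ≤ m) {A B : K[X]} (h : Good m A B) {x y : M K}
    {hn : (W (bb K)).toAffine.Nonsingular x y} (e : m • Q K = Point.some x y hn) :
    x ≠ j (lam * X) ∧ j lam * j A = x * j B := by
  obtain ⟨c, hc, e1, e2⟩ := h.rep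
  rw [e, Point.xRep_some] at e1 e2
  have e1' : j (lam * A) = c * x := e1
  have e2' : j B = c * 1 := e2
  have e3 : j lam * j A = x * j B := by
    rw [← map_mul, e1', e2']; ring
  refine ⟨fun hx => ?_, e3⟩
  rw [hx, ← map_mul, ← map_mul] at e3
  have h4 : lam * A = lam * X * B := j_inj e3
  rw [mul_assoc] at h4
  have h5 : A = X * B := mul_left_cancel₀ lam_ne h4
  have h6 : A.leadingCoeff = B.leadingCoeff := by
    conv_lhs => rw [h5]
    rw [leadingCoeff_mul, leadingCoeff_X, one_mul]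
  have h7 := h.lead
  rw [← h6] at h7
  have h8 : A.leadingCoeff ≠ 0 := leadingCoeff_ne_zero.mpr h.A0
  have h9 : ((m : K) ^ 2 - 1) * A.leadingCoeff = 0 := by linear_combination -h7
  rcases mul_eq_zero.mp h9 with h10 | h10
  · have h11 : (m : K) ^ 2 = 1 := by linear_combination h10
    have h12 : m ^ 2 = 1 := by exact_mod_cast h11
    nlinarith
  · exact h8 h10

lemma Good.ne_zero {m : ℕ} {A B : K[X]} (h : Good m A B) : m • Q K ≠ 0 := by
  intro h0
  obtain ⟨c, hc, e1, e2⟩ := h.rep
  rw [h0, Point.xRep_zero] at e2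
  have e2' : j B = c * 0 := e2
  rw [mul_zero] at e2'
  exact h.B0 (j_inj (by rw [e2', map_zero]))

/-- specialization of the multiples of the third point -/
theorem spec {P : Pt (bc (kg K))} (hP : IsPt P 1 1) (m : ℕ) (hm : 1 ≤ m) :
    ∃ (x y : D0 (Fin 4) K) (hn : (W (bc (kg K))).toAffine.Nonsingular x y) (x' y' : M K)
      (hn' : (W (bb K)).toAffine.Nonsingular x' y'), m • P = Point.some x y hn ∧
      m • Q K = Point.some x' y' hn' ∧ Ev (cM K) (x : L (Fin 4) K) (x' / j X ^ 4) ∧
      Ev (cM K) (y : L (Fin 4) K) (y' / j X ^ 6) := by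
  have hX := jX_ne K
  obtain ⟨hn, rfl⟩ := hP
  have hk := ev_kg K
  have hx1 : Ev (cM K) (((kg K * 1 : D0 (Fin 4) K)) : L (Fin 4) K) (j (lam * X) / j X ^ 4) := by
    have : j (lam * X : K[X]) / j X ^ 4 = j lam / j X ^ 3 := by
      rw [map_mul]; field_simp
    rw [this, mul_one]
    exact hk
  have hy1 : Ev (cM K) (((kg K ^ 2 * 1 : D0 (Fin 4) K)) : L (Fin 4) K) (j (lam ^ 2) / j X ^ 6) := by
    have : j (lam ^ 2 : K[X]) / j X ^ 6 = (j lam / j X ^ 3) ^ 2 := by
      rw [map_pow]; field_simp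
    rw [this, mul_one]
    push_cast
    exact hk.pow 2
  induction m, hm using Nat.le_induction with
  | base =>
    refine ⟨_, _, hn, _, _, _, one_smul _ _, one_smul _ _, hx1, hy1⟩
  | succ m hm ih =>
    obtain ⟨x, y, h1, x', y', h1', e, e', hx, hy⟩ := ih
    obtain ⟨A, B, hG⟩ := good (K := K) m hm
    by_cases hm1 : m = 1
    · -- doubling
      subst hm1
      rw [one_smul] at e e'
      have hy0' : y' ≠ 0 := by
        rw [Q] at e'
        injection e' with _ h2
        rw [← h2, map_pow]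
        exact pow_ne_zero _ jlam_ne
      have hy0 : y ≠ 0 := by
        have := hy.ne_zero (div_ne_zero hy0' (pow_ne_zero _ hX))
        exact_mod_cast this
      obtain ⟨X2, Y2, h2, e2, hX2, hY2⟩ := dbl h1 hy0
      obtain ⟨X2', Y2', h2', e2', hX2', hY2'⟩ := dbl h1' hy0'
      have hd : (2 : M K) * (y' / j X ^ 6) ≠ 0 :=
        mul_ne_zero two_ne_zero (div_ne_zero hy0' (pow_ne_zero _ hX))
      have hs : Ev (cM K) ((3 * (x : L (Fin 4) K) ^ 2 / (2 * (y : L (Fin 4) K))))
          (3 * (x' / j X ^ 4) ^ 2 / (2 * (y' / j X ^ 6))) :=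
        (Ev.three.mul (hx.pow 2)).div (Ev.two.mul hy) hd
      have es : 3 * (x' / j X ^ 4) ^ 2 / (2 * (y' / j X ^ 6)) =
          (3 * x' ^ 2 / (2 * y')) / j X ^ 2 := by
        field_simp
      rw [es] at hs
      have c2 : ((2 : D0 (Fin 4) K) : L (Fin 4) K) = 2 := rfl
      have c3 : ((3 : D0 (Fin 4) K) : L (Fin 4) K) = 3 := rfl
      have hXe : Ev (cM K) (X2 : L (Fin 4) K) (X2' / j X ^ 4) := by
        have := ((hs.pow 2).sub hx).sub hx
        have e3 : ((3 * x' ^ 2 / (2 * y')) / j X ^ 2) ^ 2 - x' / j X ^ 4 - x' / j X ^ 4 =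
            X2' / j X ^ 4 := by rw [hX2']; field_simp
        rw [e3] at this
        rw [hX2]
        push_cast
        rw [c2, c3]
        exact this
      refine ⟨X2, Y2, h2, X2', Y2', h2', ?_, ?_, hXe, ?_⟩
      · rw [two_nsmul, e, e2]
      · rw [two_nsmul, e', e2']
      · have := (hy.add (hs.mul (hXe.sub hx))).neg
        have e3 : -(y' / j X ^ 6 + (3 * x' ^ 2 / (2 * y')) / j X ^ 2 *
            (X2' / j X ^ 4 - x' / j X ^ 4)) = Y2' / j X ^ 6 := by
          rw [hY2']; field_simp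
        rw [e3] at this
        rw [hY2]
        push_cast
        rw [c2, c3]
        exact this
    · -- addition
      obtain ⟨hne', -⟩ := Good.x_ne (by omega) hG e'
      have hne : x ≠ kg K * 1 := by
        intro h
        have h3 := (hx.sub hx1).ne_zero (by
          rw [← sub_div]
          exact div_ne_zero (sub_ne_zero.mpr hne') (pow_ne_zero _ hX))
        apply h3
        rw [h, sub_self]
      obtain ⟨X2, Y2, h2, e2, hX2, hY2⟩ := add_ne h1 hn hne
      obtain ⟨X2', Y2', h2', e2', hX2', hY2'⟩ := add_ne h1' (W_nonsing bb_ne Q_eq) hne'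
      have hd : x' / j X ^ 4 - j (lam * X) / j X ^ 4 ≠ 0 := by
        rw [← sub_div]
        exact div_ne_zero (sub_ne_zero.mpr hne') (pow_ne_zero _ hX)
      have hs := (hy.sub hy1).div (hx.sub hx1) hd
      have hd' : x' - j (lam * X) ≠ 0 := sub_ne_zero.mpr hne'
      have es : (y' / j X ^ 6 - j (lam ^ 2) / j X ^ 6) / (x' / j X ^ 4 - j (lam * X) / j X ^ 4) =
          ((y' - j (lam ^ 2)) / (x' - j (lam * X))) / j X ^ 2 := by
        rw [← sub_div, ← sub_div]
        field_simp
      rw [es] at hs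
      have hXe : Ev (cM K) (X2 : L (Fin 4) K) (X2' / j X ^ 4) := by
        have := ((hs.pow 2).sub hx).sub hx1
        have e3 : (((y' - j (lam ^ 2)) / (x' - j (lam * X))) / j X ^ 2) ^ 2 - x' / j X ^ 4 -
            j (lam * X) / j X ^ 4 = X2' / j X ^ 4 := by rw [hX2']; field_simp
        rw [e3] at this
        rw [hX2]
        push_cast at this ⊢
        exact this
      refine ⟨X2, Y2, h2, X2', Y2', h2', ?_, ?_, hXe, ?_⟩
      · rw [succ_nsmul, e, e2]
      · rw [succ_nsmul, e']; exact e2'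
      · have := (hy.add (hs.mul (hXe.sub hx))).neg
        have e3 : -(y' / j X ^ 6 + ((y' - j (lam ^ 2)) / (x' - j (lam * X))) / j X ^ 2 *
            (X2' / j X ^ 4 - x' / j X ^ 4)) = Y2' / j X ^ 6 := by
          rw [hY2']; field_simp
        rw [e3] at this
        rw [hY2]
        push_cast at this ⊢
        exact this

/-- the heights of the multiples of the third point -/
theorem low {P : Pt (bc (kg K))} (hP : IsPt P 1 1) (m : ℕ) (hm : 2 ≤ m) :
    m ^ 2 ≤ hp (m • P) + 4 := by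
  obtain ⟨x, y, hn, x', y', hn', e, e', hx, -⟩ := spec hP m (by omega)
  obtain ⟨A, B, hG⟩ := good (K := K) m (by omega)
  obtain ⟨-, h1⟩ := Good.x_ne hm hG e'
  have hxv : xv (m • P) = ![(x : L (Fin 4) K), 1] := by
    rw [e]
    funext i
    fin_cases i <;> simp [xv]
  have hh : hp (m • P) = ht (x : L (Fin 4) K) := by rw [hp, hxv]; rfl
  obtain ⟨S, c, hc, hS, hSv, hcop⟩ := (D0_self x.2).rep ne_pair
  have h0 : ι (S 0) = c * (x : L (Fin 4) K) := hSv 0
  have h2 : ι (S 1) = c * 1 := hSv 1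
  have hS1 : S 1 ≠ 0 := by
    intro h
    rw [h, map_zero, mul_one] at h2
    exact hc h2.symm
  have hcop' : Cop ![S 0, S 1] := by
    intro G hG
    refine hcop G fun i => ?_
    fin_cases i
    exacts [hG 0, hG 1]
  obtain ⟨h3, h4⟩ := hx.coprime hcop' hS1 (by rw [h0, h2]; ring)
  have hae : ∀ p : MvPolynomial (Fin 4) K, MvPolynomial.aeval (cM K) p =
      j (MvPolynomial.aeval (cv K) p) := by
    intro p
    have : cM K = fun i => algebraMap K[X] (M K) (cv K i) := rfl
    rw [this]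
    exact (MvPolynomial.aeval_algebraMap_apply (M K) (cv K) p)
  rw [hae] at h3 h4
  rw [hae] at h4
  set a := MvPolynomial.aeval (cv K) (S 0) with ha
  set b := MvPolynomial.aeval (cv K) (S 1) with hb
  have hX := jX_ne K
  have hb0 : b ≠ 0 := fun h => h3 (by rw [h, map_zero])
  have key : lam * A * b = B * (X ^ 4 * a) := by
    apply j_inj
    have h5 : x' * j b = j X ^ 4 * j a := by
      rw [← h4]; field_simp
    rw [map_mul, map_mul, h1, map_mul, map_mul, map_pow, ← h5]
    ring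
  have hdvd : B ∣ lam * b := by
    have h6 : B ∣ A * (lam * b) := ⟨X ^ 4 * a, by rw [← key]; ring⟩
    exact hG.cop.symm.dvd_of_dvd_mul_left h6
  have hlb : lam * b ≠ 0 := mul_ne_zero lam_ne hb0
  have hdeg := natDegree_le_of_dvd hdvd hlb
  have hb1 : b.natDegree ≤ ht (x : L (Fin 4) K) := by
    have h7 := MvPolynomial.aeval_natDegree_le (S 1) (hS 1).totalDegree_le (cv K) (n := 1) (by
      intro i
      fin_cases i
      · exact natDegree_X_le
      · exact natDegree_X_le
      · simp [cv]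
      · change (2 * X : K[X]).natDegree ≤ 1
        rw [show (2 : K[X]) = C 2 by rw [map_ofNat]]
        exact (natDegree_C_mul_le _ _).trans natDegree_X_le)
    rwa [mul_one] at h7
  have hl : (lam : K[X]).natDegree ≤ 3 := by
    rw [lam]; compute_degree
  have h8 : (lam * b).natDegree ≤ 3 + ht (x : L (Fin 4) K) :=
    natDegree_mul_le.trans (add_le_add hl hb1)
  have h9 := hG.degB
  rw [hh]
  omega

end Pool.Agent.N890.DG.Low
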