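import Mathlib
import Pool.Agent.N890.DG.Defs
import Pool.Agent.N890.DG.Low
import Pool.Agent.N890.DG.Dom

set_option autoImplicit false
set_option linter.unusedSectionVars false

/-! The map, its generic orbit, and the degrees of the iterates. -/

namespace Pool.Agent.N890.DG.Main

open MvPolynomial Ht Eval Form EvForm Ell Par Low Dom WeierstrassCurve WeierstrassCurve.Affine

variable (K : Type*) [Field K] [CharZero K]

abbrev L4 : Type _ := L (Fin 4) K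
abbrev D4 : Type _ := D0 (Fin 4) K

/-- affine coordinates of the map at the generic point -/
noncomputable def fg : Fin 3 → D4 K :=
  ![SX (gu K 0) (gu K 1) (gu K 2), RX (gu K 0) (gu K 1) (gu K 2), TW (gu K 0) (gu K 1) (gu K 2)]

variable {K} in
/-- the vector `(1, a)` -/
noncomputable def vec (a : Fin 3 → D4 K) : Fin 4 → L4 K := Fin.cons 1 fun i => (a i : L4 K)

variable {K} in
lemma vec_mem (a : Fin 3 → D4 K) (i : Fin 4) : vec a i ∈ D0 (Fin 4) K := by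
  refine Fin.cases ?_ (fun k => ?_) i
  · exact one_mem _
  · exact (a k).2

variable {K} in
lemma vec_ne (a : Fin 3 → D4 K) : vec a ≠ 0 := by
  intro h
  have := congrFun h 0
  simp [vec] at this

variable {K} in
lemma vec_PH (a : Fin 3 → D4 K) : PH (vec a) (∑ i, ht (vec a i)) := PH_of_mem (vec_mem a)

lemma exists_F : ∃ (F : Fin 4 → MvPolynomial (Fin 4) K) (c : L4 K), c ≠ 0 ∧
    (∀ i, (F i).IsHomogeneous (ph (vec (fg K)))) ∧ (∀ i, ι (F i) = c * vec (fg K) i) ∧ Cop F :=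
  (vec_PH (fg K)).rep (vec_ne (fg K))

/-- the homogeneous coordinates of the map -/
noncomputable def F : Fin 4 → MvPolynomial (Fin 4) K := (exists_F K).choose

/-- the proportionality factor -/
noncomputable def cF : L4 K := (exists_F K).choose_spec.choose

lemma cF_ne : cF K ≠ 0 := (exists_F K).choose_spec.choose_spec.1
lemma F_hom (i : Fin 4) : (F K i).IsHomogeneous (ph (vec (fg K))) :=
  (exists_F K).choose_spec.choose_spec.2.1 i
lemma F_eq (i : Fin 4) : ι (F K i) = cF K * vec (fg K) i :=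
  (exists_F K).choose_spec.choose_spec.2.2.1 i
lemma F_cop : Cop (F K) := (exists_F K).choose_spec.choose_spec.2.2.2

lemma F_map : IsRationalMap (F K) (ph (vec (fg K))) := ⟨F_hom K, F_cop K⟩

lemma F0_eq : ι (F K 0) = cF K := by
  have := F_eq K 0
  rwa [show vec (fg K) 0 = 1 from rfl, mul_one] at this

lemma F0_ne : F K 0 ≠ 0 := by
  intro h
  have := F0_eq K
  rw [h, map_zero] at this
  exact cF_ne K this.symm

lemma Fs_eq (i : Fin 3) : ι (F K i.succ) / ι (F K 0) = (fg K i : L4 K) := by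
  rw [F0_eq, F_eq, show vec (fg K) i.succ = (fg K i : L4 K) from rfl]
  exact mul_div_cancel_left₀ _ (cF_ne K)

/-! ### the three points -/

lemma kg_eq : kap (gu K 0) (gu K 1) (gu K 2) = kg K := rfl

lemma exists_P1 : ∃ P : Pt (bc (kg K)),
    IsPt P (gu K 0) (1 + gu K 2 * tau (gu K 0) (gu K 1) (gu K 2)) :=
  exists_pt (kg0 K) (kg1 K) (on_curve (nd_gen K)).1

lemma exists_P2 : ∃ P : Pt (bc (kg K)), IsPt P (gu K 1) (1 + tau (gu K 0) (gu K 1) (gu K 2)) :=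
  exists_pt (kg0 K) (kg1 K) (on_curve (nd_gen K)).2

lemma exists_P3 : ∃ P : Pt (bc (kg K)), IsPt P 1 1 :=
  exists_pt (kg0 K) (kg1 K) (by ring)

noncomputable def P1 : Pt (bc (kg K)) := (exists_P1 K).choose
noncomputable def P2 : Pt (bc (kg K)) := (exists_P2 K).choose
noncomputable def P3 : Pt (bc (kg K)) := (exists_P3 K).choose
lemma hP1 : IsPt (P1 K) (gu K 0) (1 + gu K 2 * tau (gu K 0) (gu K 1) (gu K 2)) :=
  (exists_P1 K).choose_spec
lemma hP2 : IsPt (P2 K) (gu K 1) (1 + tau (gu K 0) (gu K 1) (gu K 2)) :=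
  (exists_P2 K).choose_spec
lemma hP3 : IsPt (P3 K) 1 1 := (exists_P3 K).choose_spec

/-! ### dominance -/

section Mem

variable {K} {E : Subfield (L4 K)} {a b c d e : L4 K}

lemma mem_tau (ha : a ∈ E) (hb : b ∈ E) (hc : c ∈ E) : tau a b c ∈ E := by
  have := (tau (⟨a, ha⟩ : E) ⟨b, hb⟩ ⟨c, hc⟩).2
  rwa [show ((tau (⟨a, ha⟩ : E) ⟨b, hb⟩ ⟨c, hc⟩ : E) : L4 K) = tau a b c from
    map_tau E.subtype _ _ _] at this

lemma mem_kap (ha : a ∈ E) (hb : b ∈ E) (hc : c ∈ E) : kap a b c ∈ E := by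
  have := (kap (⟨a, ha⟩ : E) ⟨b, hb⟩ ⟨c, hc⟩).2
  rwa [show ((kap (⟨a, ha⟩ : E) ⟨b, hb⟩ ⟨c, hc⟩ : E) : L4 K) = kap a b c from
    map_kap E.subtype _ _ _] at this

lemma mem_addX (ha : a ∈ E) (hb : b ∈ E) (hc : c ∈ E) (hd : d ∈ E) (he : e ∈ E) :
    addX a b c d e ∈ E := by
  have := (addX (⟨a, ha⟩ : E) ⟨b, hb⟩ ⟨c, hc⟩ ⟨d, hd⟩ ⟨e, he⟩).2
  rwa [show ((addX (⟨a, ha⟩ : E) ⟨b, hb⟩ ⟨c, hc⟩ ⟨d, hd⟩ ⟨e, he⟩ : E) : L4 K) = addX a b c d e from
    Form.map_addX E.subtype _ _ _ _ _] at this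

lemma mem_addY (ha : a ∈ E) (hb : b ∈ E) (hc : c ∈ E) (hd : d ∈ E) (he : e ∈ E) :
    addY a b c d e ∈ E := by
  have := (addY (⟨a, ha⟩ : E) ⟨b, hb⟩ ⟨c, hc⟩ ⟨d, hd⟩ ⟨e, he⟩).2
  rwa [show ((addY (⟨a, ha⟩ : E) ⟨b, hb⟩ ⟨c, hc⟩ ⟨d, hd⟩ ⟨e, he⟩ : E) : L4 K) = addY a b c d e from
    Form.map_addY E.subtype _ _ _ _ _] at this

end Mem

/-! ### the inverse map in formulas -/

section Inv

variable {F : Type*} [Field F]

/-- formulas for the inverse map -/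
def iRY (a b c : F) : F := 1 + tau a b c
def iSY (a b c : F) : F := 1 + c * tau a b c
def iU2 (a b c : F) : F := addX (kap a b c) b (iRY a b c) 1 (-1)
def iY2 (a b c : F) : F := addY (kap a b c) b (iRY a b c) 1 (-1)
def iU1 (a b c : F) : F := addX (kap a b c) a (iSY a b c) (iU2 a b c) (-(iY2 a b c))
def iY1 (a b c : F) : F := addY (kap a b c) a (iSY a b c) (iU2 a b c) (-(iY2 a b c))
def iW (a b c : F) : F := (iY1 a b c - 1) / (iY2 a b c - 1)

variable {E : Type*} [Field E] (g : F →+* E)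

lemma map_iU2 (a b c : F) : g (iU2 a b c) = iU2 (g a) (g b) (g c) := by
  simp [iU2, iRY, Form.map_addX, map_kap, map_tau]
lemma map_iY2 (a b c : F) : g (iY2 a b c) = iY2 (g a) (g b) (g c) := by
  simp [iY2, iRY, Form.map_addY, map_kap, map_tau]
lemma map_iU1 (a b c : F) : g (iU1 a b c) = iU1 (g a) (g b) (g c) := by
  simp [iU1, iSY, Form.map_addX, map_kap, map_tau, map_iU2, map_iY2]
lemma map_iY1 (a b c : F) : g (iY1 a b c) = iY1 (g a) (g b) (g c) := by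
  simp [iY1, iSY, Form.map_addY, map_kap, map_tau, map_iU2, map_iY2]
lemma map_iW (a b c : F) : g (iW a b c) = iW (g a) (g b) (g c) := by
  simp [iW, map_iY1, map_iY2]

end Inv

/-- the inverse formulas recover the generic point -/
lemma inv_gen : iU1 (fg K 0) (fg K 1) (fg K 2) = gu K 0 ∧ iU2 (fg K 0) (fg K 1) (fg K 2) = gu K 1 ∧
    iW (fg K 0) (fg K 1) (fg K 2) = gu K 2 := by
  have hnd := nd_gen K
  obtain ⟨-, -, s3, s4, s5⟩ := step hnd (kg_eq K) (hP1 K) (hP2 K) (hP3 K)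
  obtain ⟨t1, t2, t3, t4⟩ := inverse hnd (kg_eq K) (hP1 K) (hP2 K) (hP3 K)
  have f0 : fg K 0 = SX (gu K 0) (gu K 1) (gu K 2) := rfl
  have f1 : fg K 1 = RX (gu K 0) (gu K 1) (gu K 2) := rfl
  have f2 : fg K 2 = TW (gu K 0) (gu K 1) (gu K 2) := rfl
  have e1 : iRY (fg K 0) (fg K 1) (fg K 2) = RY (gu K 0) (gu K 1) (gu K 2) := by
    rw [iRY, f0, f1, f2, s3]; ring
  have e2 : iSY (fg K 0) (fg K 1) (fg K 2) = SY (gu K 0) (gu K 1) (gu K 2) := by
    rw [iSY, f0, f1, f2, s4]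
  have e3 : kap (fg K 0) (fg K 1) (fg K 2) = kg K := by rw [f0, f1, f2, s5]
  have e4 : iU2 (fg K 0) (fg K 1) (fg K 2) = gu K 1 := by
    rw [iU2, e1, e3, f1]; exact t1.symm
  have e5 : iY2 (fg K 0) (fg K 1) (fg K 2) = 1 + tau (gu K 0) (gu K 1) (gu K 2) := by
    rw [iY2, e1, e3, f1]; exact t2.symm
  have e6 : iU1 (fg K 0) (fg K 1) (fg K 2) = gu K 0 := by
    rw [iU1, e2, e3, e4, e5, f0]; exact t3.symm
  have e7 : iY1 (fg K 0) (fg K 1) (fg K 2) = 1 + gu K 2 * tau (gu K 0) (gu K 1) (gu K 2) := by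
    rw [iY1, e2, e3, e4, e5, f0]; exact t4.symm
  refine ⟨e6, e4, ?_⟩
  rw [iW, e5, e7]
  have h0 := hnd.tau0
  rw [add_sub_cancel_left, add_sub_cancel_left]
  exact mul_div_cancel_right₀ _ h0

theorem F_dom : IsDominant (F K) := by
  apply algInd (by norm_num) (F K) (F_hom K) (F0_ne K)
  intro E hE
  have hf : ∀ i, (fg K i : L4 K) ∈ E.toSubfield := by
    intro i
    rw [← Fs_eq]
    exact div_mem (hE _) (hE _)
  obtain ⟨g0, g1, g2⟩ := inv_gen K
  have h1 : (1 : L4 K) ∈ E.toSubfield := one_mem _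
  have m1 : (-1 : L4 K) ∈ E.toSubfield := neg_mem h1
  have ht := mem_tau (hf 0) (hf 1) (hf 2)
  have hk := mem_kap (hf 0) (hf 1) (hf 2)
  have hRY : iRY (fg K 0 : L4 K) (fg K 1) (fg K 2) ∈ E.toSubfield := add_mem h1 ht
  have hSY : iSY (fg K 0 : L4 K) (fg K 1) (fg K 2) ∈ E.toSubfield :=
    add_mem h1 (mul_mem (hf 2) ht)
  have hU2 : iU2 (fg K 0 : L4 K) (fg K 1) (fg K 2) ∈ E.toSubfield := mem_addX hk (hf 1) hRY h1 m1
  have hY2 : iY2 (fg K 0 : L4 K) (fg K 1) (fg K 2) ∈ E.toSubfield := mem_addY hk (hf 1) hRY h1 m1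
  have hU1 : iU1 (fg K 0 : L4 K) (fg K 1) (fg K 2) ∈ E.toSubfield :=
    mem_addX hk (hf 0) hSY hU2 (neg_mem hY2)
  have hY1 : iY1 (fg K 0 : L4 K) (fg K 1) (fg K 2) ∈ E.toSubfield :=
    mem_addY hk (hf 0) hSY hU2 (neg_mem hY2)
  have hW : iW (fg K 0 : L4 K) (fg K 1) (fg K 2) ∈ E.toSubfield :=
    div_mem (sub_mem hY1 h1) (sub_mem hY2 h1)
  have c0 : iU1 (fg K 0 : L4 K) (fg K 1) (fg K 2) = (gu K 0 : L4 K) := by
    have h := map_iU1 (D0 (Fin 4) K).subtype (fg K 0) (fg K 1) (fg K 2)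
    rw [g0] at h
    exact h.symm
  have c1 : iU2 (fg K 0 : L4 K) (fg K 1) (fg K 2) = (gu K 1 : L4 K) := by
    have h := map_iU2 (D0 (Fin 4) K).subtype (fg K 0) (fg K 1) (fg K 2)
    rw [g1] at h
    exact h.symm
  have c2 : iW (fg K 0 : L4 K) (fg K 1) (fg K 2) = (gu K 2 : L4 K) := by
    have h := map_iW (D0 (Fin 4) K).subtype (fg K 0) (fg K 1) (fg K 2)
    rw [g2] at h
    exact h.symm
  rw [c0] at hU1
  rw [c1] at hU2
  rw [c2] at hW
  intro i
  fin_cases i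
  · exact hU1
  · exact hU2
  · exact hW

end Pool.Agent.N890.DG.Main
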