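import Mathlib
import Pool.Agent.N890.DG.Main

set_option autoImplicit false
set_option linter.unusedSectionVars false

/-! The generic orbit. -/

namespace Pool.Agent.N890.DG.Orb

open MvPolynomial Ht Eval Form EvForm Ell Par Low Dom Main WeierstrassCurve
  WeierstrassCurve.Affine

variable (K : Type*) [Field K] [CharZero K]

lemma F_inj : Function.Injective (bind₁ (F K)) := F_dom K

/-- the endomorphism of the function field given by the map -/
noncomputable def Φ : L4 K →+* L4 K :=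
  IsFractionRing.lift (A := MvPolynomial (Fin 4) K)
    (g := (ι (σ := Fin 4) (K := K)).comp (bind₁ (F K)).toRingHom)
    (fun _ _ h => F_inj K (ι_inj h))

lemma Φ_ι (p : MvPolynomial (Fin 4) K) : Φ K (ι p) = ι (bind₁ (F K) p) :=
  IsFractionRing.lift_algebraMap _ p

/-- the iterates of the endomorphism -/
noncomputable def Ψ : ℕ → (L4 K →+* L4 K)
  | 0 => RingHom.id _
  | n + 1 => (Ψ n).comp (Φ K)

lemma Ψ_ι (n : ℕ) (p : MvPolynomial (Fin 4) K) :
    Ψ K n (ι p) = ι (bind₁ (substIter (F K) n) p) := by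
  induction n generalizing p with
  | zero =>
    have : bind₁ (substIter (F K) 0) p = p := by
      change bind₁ X p = p
      rw [bind₁_X_left]; rfl
    rw [this]; rfl
  | succ n ih =>
    change Ψ K n (Φ K (ι p)) = _
    rw [Φ_ι, ih, bind₁_bind₁]
    rfl

/-- the orbit of the generic point -/
noncomputable def orb : ℕ → Fin 3 → D4 K
  | 0 => gu K
  | n + 1 => ![SX (orb n 0) (orb n 1) (orb n 2), RX (orb n 0) (orb n 1) (orb n 2),
      TW (orb n 0) (orb n 1) (orb n 2)]

lemma Φ_gu (i : Fin 3) : Φ K (gu K i : L4 K) = (fg K i : L4 K) := by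
  have h : (gu K i : L4 K) = ι (X i.succ) / ι (X 0) := rfl
  rw [h, map_div₀, Φ_ι, Φ_ι, bind₁_X_right, bind₁_X_right, Fs_eq]

lemma orb_succ (n : ℕ) (i : Fin 3) : orb K (n + 1) i =
    (![SX (orb K n 0) (orb K n 1) (orb K n 2), RX (orb K n 0) (orb K n 1) (orb K n 2),
      TW (orb K n 0) (orb K n 1) (orb K n 2)] : Fin 3 → D4 K) i := rfl

lemma Ψ_gu (n : ℕ) (i : Fin 3) : Ψ K n (gu K i : L4 K) = (orb K n i : L4 K) := by
  induction n generalizing i with
  | zero => rfl
  | succ n ih =>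
    change Ψ K n (Φ K (gu K i : L4 K)) = _
    rw [Φ_gu]
    fin_cases i
    · have h1 := Form.map_SX (D0 (Fin 4) K).subtype (gu K 0) (gu K 1) (gu K 2)
      have h2 := Form.map_SX (D0 (Fin 4) K).subtype (orb K n 0) (orb K n 1) (orb K n 2)
      have h3 := Form.map_SX (Ψ K n) (gu K 0 : L4 K) (gu K 1) (gu K 2)
      rw [ih, ih, ih] at h3
      change Ψ K n ((D0 (Fin 4) K).subtype (SX (gu K 0) (gu K 1) (gu K 2))) =
        (D0 (Fin 4) K).subtype (SX (orb K n 0) (orb K n 1) (orb K n 2))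
      rw [h1, h2]
      exact h3
    · have h1 := Form.map_RX (D0 (Fin 4) K).subtype (gu K 0) (gu K 1) (gu K 2)
      have h2 := Form.map_RX (D0 (Fin 4) K).subtype (orb K n 0) (orb K n 1) (orb K n 2)
      have h3 := Form.map_RX (Ψ K n) (gu K 0 : L4 K) (gu K 1) (gu K 2)
      rw [ih, ih, ih] at h3
      change Ψ K n ((D0 (Fin 4) K).subtype (RX (gu K 0) (gu K 1) (gu K 2))) =
        (D0 (Fin 4) K).subtype (RX (orb K n 0) (orb K n 1) (orb K n 2))
      rw [h1, h2]
      exact h3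
    · have h1 := Form.map_TW (D0 (Fin 4) K).subtype (gu K 0) (gu K 1) (gu K 2)
      have h2 := Form.map_TW (D0 (Fin 4) K).subtype (orb K n 0) (orb K n 1) (orb K n 2)
      have h3 := Form.map_TW (Ψ K n) (gu K 0 : L4 K) (gu K 1) (gu K 2)
      rw [ih, ih, ih] at h3
      change Ψ K n ((D0 (Fin 4) K).subtype (TW (gu K 0) (gu K 1) (gu K 2))) =
        (D0 (Fin 4) K).subtype (TW (orb K n 0) (orb K n 1) (orb K n 2))
      rw [h1, h2]
      exact h3

lemma orb_nd (n : ℕ) : ND (orb K n 0) (orb K n 1) (orb K n 2) := by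
  rw [ND_iff]
  intro h
  have h1 := congrArg (D0 (Fin 4) K).subtype h
  rw [Form.map_nd, map_zero] at h1
  have h2 := (ND_iff _ _ _).mp (nd_gen K)
  have h3 : nd (gu K 0 : L4 K) (gu K 1) (gu K 2) ≠ 0 := by
    have h4 := Form.map_nd (D0 (Fin 4) K).subtype (gu K 0) (gu K 1) (gu K 2)
    intro h5
    apply h2
    apply (D0 (Fin 4) K).subtype.injective
    rw [h4, map_zero]
    exact h5
  have h6 := Form.map_nd (Ψ K n) (gu K 0 : L4 K) (gu K 1) (gu K 2)
  rw [Ψ_gu, Ψ_gu, Ψ_gu] at h6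
  have h7 : Ψ K n (nd (gu K 0 : L4 K) (gu K 1) (gu K 2)) = 0 := h6.trans h1
  exact h3 ((map_eq_zero _).mp h7)

/-- the points along the orbit -/
noncomputable def Rp (n : ℕ) : Pt (bc (kg K)) := P1 K + n • P2 K + (n.choose 2) • P3 K
noncomputable def Sp (n : ℕ) : Pt (bc (kg K)) := P2 K + n • P3 K

lemma orb_pts (n : ℕ) :
    IsPt (Rp K n) (orb K n 0) (1 + orb K n 2 * tau (orb K n 0) (orb K n 1) (orb K n 2)) ∧
    IsPt (Sp K n) (orb K n 1) (1 + tau (orb K n 0) (orb K n 1) (orb K n 2)) ∧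
    kap (orb K n 0) (orb K n 1) (orb K n 2) = kg K := by
  induction n with
  | zero =>
    refine ⟨?_, ?_, rfl⟩
    · rw [Rp, zero_smul, Nat.choose_eq_zero_of_lt (by norm_num : 0 < 2), zero_smul, add_zero,
        add_zero]
      exact hP1 K
    · rw [Sp, zero_smul, add_zero]
      exact hP2 K
  | succ n ih =>
    obtain ⟨h1, h2, h3⟩ := ih
    obtain ⟨s1, s2, s3, s4, s5⟩ := step (orb_nd K n) h3 h1 h2 (hP3 K)
    have hR : Rp K (n + 1) = Rp K n + Sp K n := by
      rw [Rp, Rp, Sp, Nat.choose_succ_succ' n 1, Nat.choose_one_right, add_smul, add_smul, one_smul]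
      abel
    have hS : Sp K (n + 1) = Sp K n + P3 K := by
      rw [Sp, Sp, succ_nsmul]
      abel
    have o0 : orb K (n + 1) 0 = SX (orb K n 0) (orb K n 1) (orb K n 2) := rfl
    have o1 : orb K (n + 1) 1 = RX (orb K n 0) (orb K n 1) (orb K n 2) := rfl
    have o2 : orb K (n + 1) 2 = TW (orb K n 0) (orb K n 1) (orb K n 2) := rfl
    rw [hR, hS, o0, o1, o2, s4, s3]
    refine ⟨s1, ?_, s5⟩
    rw [add_sub_cancel]
    exact s2

end Pool.Agent.N890.DG.Orb
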