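import Mathlib
import Pool.Agent.N890.DG.Orb

set_option autoImplicit false
set_option linter.unusedSectionVars false

/-! The degrees of the iterates. -/

namespace Pool.Agent.N890.DG.Degs

open MvPolynomial Ht Eval Form EvForm Ell Par Low Dom Main Orb WeierstrassCurve
  WeierstrassCurve.Affine

variable (K : Type*) [Field K] [CharZero K]

/-- the degree of the `n`-th iterate -/
noncomputable def deg (n : ℕ) : ℕ := ph (vec (orb K n))

lemma Ψ_X (n : ℕ) (i : Fin 4) : ι (substIter (F K) n i) = Ψ K n (ι (X 0)) * vec (orb K n) i := by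
  have h1 : ι (substIter (F K) n i) = Ψ K n (ι (X i)) := by
    rw [Ψ_ι, bind₁_X_right]
  rw [h1]
  refine Fin.cases ?_ (fun k => ?_) i
  · rw [show vec (orb K n) 0 = 1 from rfl, mul_one]
  · rw [← gu_eq, map_mul, Ψ_gu]
    exact mul_comm _ _

lemma Ψ_X0_ne (n : ℕ) : Ψ K n (ι (X 0)) ≠ 0 := (map_ne_zero _).mpr (X0_ne K)

theorem deg_iff (n m : ℕ) : IsIterateDegree (F K) n m ↔ m = deg K n := by
  constructor
  · rintro ⟨H, G, hH, hG, h⟩
    have hH' : ι H ≠ 0 := fun h => hH (ι_inj (by rw [h, map_zero]))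
    symm
    refine ph_eq (A := G) (c := (ι H)⁻¹ * Ψ K n (ι (X 0)))
      (mul_ne_zero (inv_ne_zero hH') (Ψ_X0_ne K n)) hG.homogeneous (fun i => ?_) hG.coprime
    have h1 := Ψ_X K n i
    rw [h i, map_mul] at h1
    rw [mul_assoc, ← h1, inv_mul_cancel_left₀ hH']
  · rintro rfl
    obtain ⟨G, c, hc, hG, hGv, hcop⟩ := (vec_PH (orb K n)).rep (vec_ne (orb K n))
    obtain ⟨H, hH⟩ := dvd_of_cross hcop (B := substIter (F K) n) (fun i k => ι_inj (by
      rw [map_mul, map_mul, hGv, hGv, Ψ_X, Ψ_X]; ring))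
    refine ⟨H, G, ?_, ⟨hG, hcop⟩, fun i => by rw [hH i, mul_comm]⟩
    rintro rfl
    have h0 := Ψ_X K n 0
    rw [hH 0, mul_zero, map_zero, show vec (orb K n) 0 = 1 from rfl, mul_one] at h0
    exact Ψ_X0_ne K n h0.symm

/-! ### birationality -/

theorem F_bir : IsBirational (F K) := by
  set a : Fin 3 → D4 K := ![iU1 (gu K 0) (gu K 1) (gu K 2), iU2 (gu K 0) (gu K 1) (gu K 2),
    iW (gu K 0) (gu K 1) (gu K 2)] with ha
  obtain ⟨G, c, hc, hG, hGv, hcop⟩ := (vec_PH a).rep (vec_ne a)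
  obtain ⟨g0, g1, g2⟩ := inv_gen K
  have hΦ : ∀ i : Fin 3, Φ K (a i : L4 K) = (gu K i : L4 K) := by
    intro i
    fin_cases i
    · have h1 := map_iU1 (D0 (Fin 4) K).subtype (gu K 0) (gu K 1) (gu K 2)
      have h2 := map_iU1 (D0 (Fin 4) K).subtype (fg K 0) (fg K 1) (fg K 2)
      have h3 := map_iU1 (Φ K) (gu K 0 : L4 K) (gu K 1) (gu K 2)
      rw [Φ_gu, Φ_gu, Φ_gu] at h3
      rw [g0] at h2
      change Φ K ((D0 (Fin 4) K).subtype (iU1 (gu K 0) (gu K 1) (gu K 2))) = _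
      rw [h1]
      exact h3.trans h2.symm
    · have h1 := map_iU2 (D0 (Fin 4) K).subtype (gu K 0) (gu K 1) (gu K 2)
      have h2 := map_iU2 (D0 (Fin 4) K).subtype (fg K 0) (fg K 1) (fg K 2)
      have h3 := map_iU2 (Φ K) (gu K 0 : L4 K) (gu K 1) (gu K 2)
      rw [Φ_gu, Φ_gu, Φ_gu] at h3
      rw [g1] at h2
      change Φ K ((D0 (Fin 4) K).subtype (iU2 (gu K 0) (gu K 1) (gu K 2))) = _
      rw [h1]
      exact h3.trans h2.symm
    · have h1 := map_iW (D0 (Fin 4) K).subtype (gu K 0) (gu K 1) (gu K 2)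
      have h2 := map_iW (D0 (Fin 4) K).subtype (fg K 0) (fg K 1) (fg K 2)
      have h3 := map_iW (Φ K) (gu K 0 : L4 K) (gu K 1) (gu K 2)
      rw [Φ_gu, Φ_gu, Φ_gu] at h3
      rw [g2] at h2
      change Φ K ((D0 (Fin 4) K).subtype (iW (gu K 0) (gu K 1) (gu K 2))) = _
      rw [h1]
      exact h3.trans h2.symm
  have hX0 := X0_ne K
  have hGΦ : ∀ i : Fin 4, ι (bind₁ (F K) (G i)) = Φ K c * (ι (X 0))⁻¹ * ι (X i) := by
    intro i
    rw [← Φ_ι, hGv, map_mul, mul_assoc]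
    congr 1
    refine Fin.cases ?_ (fun k => ?_) i
    · rw [show vec a 0 = 1 from rfl, map_one, inv_mul_cancel₀ hX0]
    · rw [show vec a k.succ = (a k : L4 K) from rfl, hΦ, ← gu_eq]
      field_simp
  have hXcop : Cop (X : Fin 4 → MvPolynomial (Fin 4) K) := by
    apply Cop.exists_prime _ exists_prime_poly
    intro p hp
    by_contra hcon
    push Not at hcon
    have h0 := hcon 0
    have h1 := hcon 1
    have hp0 := (MvPolynomial.X_prime (R := K) (i := (0 : Fin 4))).irreducible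
    obtain ⟨q, hq⟩ := h0
    rcases hp0.isUnit_or_isUnit hq with hu | hu
    · exact hp.not_isUnit hu
    · have h2 : (X 0 : MvPolynomial (Fin 4) K) ∣ X 1 := by
        rw [hq]
        exact (hu.mul_right_dvd).mpr h1
      obtain ⟨r, hr⟩ := h2
      have h3 := congrArg (eval (fun i : Fin 4 => if i = 1 then (1 : K) else 0)) hr
      simp at h3
  obtain ⟨H, hH⟩ := dvd_of_cross hXcop (B := fun i => bind₁ (F K) (G i)) (fun i k => ι_inj (by
    rw [map_mul, map_mul, hGΦ, hGΦ]; ring))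
  refine ⟨_, G, H, ⟨hG, hcop⟩, ?_, fun i => by rw [hH i, mul_comm]⟩
  rintro rfl
  have h0 := hGΦ 0
  have h4 : bind₁ (F K) (G 0) = X 0 * 0 := hH 0
  rw [h4, mul_zero, map_zero, mul_assoc, inv_mul_cancel₀ hX0, mul_one] at h0
  exact (map_ne_zero (Φ K)).mpr hc h0.symm

end Pool.Agent.N890.DG.Degs
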