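import Mathlib
import Pool.Agent.N890.DG.Degs

set_option autoImplicit false
set_option linter.unusedSectionVars false

/-! Two-sided bounds for the degrees of the iterates. -/

namespace Pool.Agent.N890.DG.Bnd

open MvPolynomial Ht Eval Form EvForm Ell Par Low Dom Main Orb Degs WeierstrassCurve
  WeierstrassCurve.Affine

variable (K : Type*) [Field K] [CharZero K]

variable {K} in
lemma hp_isPt {κ : D4 K} {P : Pt (bc κ)} {x y : D4 K} (h : IsPt P x y) :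
    hp P = ht ((κ : L4 K) * (x : L4 K)) := by
  obtain ⟨hn, rfl⟩ := h
  have : xv (Point.some (κ * x) (κ ^ 2 * y) hn) = ![(κ : L4 K) * (x : L4 K), 1] := by
    funext i
    fin_cases i <;> simp [xv]
  rw [hp, this]; rfl

variable {K} in
lemma hp_le {κ : D4 K} {P : Pt (bc κ)} {x y : D4 K} (h : IsPt P x y) :
    hp P ≤ ht (κ : L4 K) + ht (x : L4 K) := by
  rw [hp_isPt h]
  exact ht_mul κ.2 x.2

variable {K} in
lemma ht_le {κ : D4 K} (hκ : κ ≠ 0) {P : Pt (bc κ)} {x y : D4 K} (h : IsPt P x y) :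
    ht (x : L4 K) ≤ hp P + ht (κ : L4 K) := by
  rw [hp_isPt h]
  have hκ' : (κ : L4 K) ≠ 0 := fun h => hκ (Subtype.ext h)
  have e : (x : L4 K) = ((κ : L4 K) * (x : L4 K)) / (κ : L4 K) := by
    rw [mul_div_cancel_left₀ _ hκ']
  conv_lhs => rw [e]
  exact ht_div (mul_mem κ.2 x.2) κ.2

variable {K} in
lemma ht_Y_le {κ : D4 K} (hκ : κ ≠ 0) {P : Pt (bc κ)} {x y : D4 K} (h : IsPt P x y) :
    2 * ht (y : L4 K) ≤ 3 * ht (x : L4 K) + ht (κ : L4 K) := by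
  have hκ' : (κ : L4 K) ≠ 0 := fun h => hκ (Subtype.ext h)
  have hc := h.curve hκ
  have hc' : (κ : L4 K) * ((y : L4 K) ^ 2 - 1) = (x : L4 K) ^ 3 - 1 := by
    have := congrArg (D0 (Fin 4) K).subtype hc
    simpa using this
  have e : (y : L4 K) ^ 2 = ((x : L4 K) ^ 3 - 1) / (κ : L4 K) + 1 := by
    rw [← hc']; field_simp; ring
  have hx3 : (x : L4 K) ^ 3 ∈ D0 (Fin 4) K := pow_mem x.2 3
  have hx2 : (x : L4 K) ^ 2 ∈ D0 (Fin 4) K := pow_mem x.2 2
  have h1 : (1 : L4 K) ∈ D0 (Fin 4) K := one_mem _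
  rw [← ht_sq y.2, e]
  have a1 := ht_add (div_mem (sub_mem hx3 h1) κ.2) h1
  have a2 := ht_div (sub_mem hx3 h1) κ.2
  have a3 := ht_sub hx3 h1
  have a4 : ht ((x : L4 K) ^ 3) ≤ 3 * ht (x : L4 K) := by
    rw [pow_succ]
    have b1 := ht_mul hx2 x.2
    have b2 := ht_sq x.2
    omega
  rw [ht_one] at a1 a3
  omega

lemma deg_ge (n : ℕ) : ht (orb K n 0 : L4 K) ≤ deg K n := by
  have h := ph_comp_le (vec_PH (orb K n)) ![(1 : Fin 4), 0]
  have e : vec (orb K n) ∘ ![(1 : Fin 4), 0] = ![(orb K n 0 : L4 K), 1] := by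
    funext i
    fin_cases i
    · rfl
    · rfl
  rw [e] at h
  exact h

/-- the constant term of the curve -/
noncomputable def bb : ℕ := ht ((bc (kg K) : D4 K) : L4 K)

lemma bc0 : bc (kg K) ≠ 0 := bc_ne (kg0 K) (kg1 K)

theorem lower : ∃ C : ℕ, ∀ n : ℕ, 3 ≤ n → (n.choose 2) ^ 2 ≤ 2 * deg K n + C * n ^ 2 := by
  refine ⟨4 + bb K + 2 * ht (kg K : L4 K) + 4 * hp (P1 K) + 4 * (hp (P2 K) + bb K) + 2 * bb K,
    fun n hn => ?_⟩
  set m := n.choose 2 with hm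
  have hm2 : 2 ≤ m := by
    have : (3 : ℕ).choose 2 ≤ n.choose 2 := Nat.choose_le_choose 2 hn
    have h3 : (3 : ℕ).choose 2 = 3 := rfl
    omega
  have h1 := low (hP3 K) m hm2
  have h2 : m • P3 K = Rp K n - (P1 K + n • P2 K) := by
    rw [Rp]; abel
  have h3 := hp_sub (bc0 K) (Rp K n) (P1 K + n • P2 K)
  rw [← h2] at h3
  have h4 := hp_add (bc0 K) (P1 K) (n • P2 K)
  have h5 := hp_nsmul (bc0 K) (P2 K) n
  have h6 := hp_le (orb_pts K n).1
  have h7 := deg_ge K n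
  have hb : ht ((bc (kg K) : D4 K) : L4 K) = bb K := rfl
  rw [hb] at h3 h4 h5
  have hn1 : 1 ≤ n ^ 2 := Nat.one_le_pow _ _ (by omega)
  generalize hp (P1 K) = p1 at *
  generalize hp (P2 K) = p2 at *
  generalize bb K = b at *
  generalize ht (kg K : L4 K) = k at *
  have e1 : b ≤ b * n ^ 2 := Nat.le_mul_of_pos_right _ (by omega)
  have e2 : k ≤ k * n ^ 2 := Nat.le_mul_of_pos_right _ (by omega)
  have e3 : p1 ≤ p1 * n ^ 2 := Nat.le_mul_of_pos_right _ (by omega)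
  calc m ^ 2 ≤ hp (m • P3 K) + 4 := h1
    _ ≤ 2 * (k + deg K n) + 2 * (2 * p1 + 2 * (n ^ 2 * (p2 + b)) + b) + b + 4 := by omega
    _ ≤ 2 * deg K n + (4 + b + 2 * k + 4 * p1 + 4 * (p2 + b) + 2 * b) * n ^ 2 := by
        nlinarith

theorem upper : ∃ C : ℕ, ∀ n : ℕ, 1 ≤ n → deg K n ≤ C * n ^ 4 := by
  -- heights of the points
  have hR : ∃ C : ℕ, ∀ n : ℕ, 1 ≤ n → hp (Rp K n) ≤ C * n ^ 4 := by
    refine ⟨2 * (2 * hp (P1 K) + 2 * (hp (P2 K) + bb K) + bb K) + 2 * (hp (P3 K) + bb K) + bb K,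
      fun n hn => ?_⟩
    have h3 := hp_add (bc0 K) (P1 K + n • P2 K) ((n.choose 2) • P3 K)
    have h4 := hp_add (bc0 K) (P1 K) (n • P2 K)
    have h5 := hp_nsmul (bc0 K) (P2 K) n
    have h6 := hp_nsmul (bc0 K) (P3 K) (n.choose 2)
    have hb : ht ((bc (kg K) : D4 K) : L4 K) = bb K := rfl
    rw [hb] at h3 h4 h5 h6
    have h7 : n.choose 2 ≤ n ^ 2 := by
      rw [Nat.choose_two_right]
      refine (Nat.div_le_self _ _).trans ?_
      rw [sq]
      exact Nat.mul_le_mul_left _ (Nat.sub_le _ _)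
    have h8 : (n.choose 2) ^ 2 ≤ n ^ 4 := by
      calc (n.choose 2) ^ 2 ≤ (n ^ 2) ^ 2 := Nat.pow_le_pow_left h7 2
        _ = n ^ 4 := by ring
    have hn4 : 1 ≤ n ^ 4 := Nat.one_le_pow _ _ (by omega)
    have hn2 : n ^ 2 ≤ n ^ 4 := Nat.pow_le_pow_right hn (by norm_num)
    generalize hp (P1 K) = p1 at *
    generalize hp (P2 K) = p2 at *
    generalize hp (P3 K) = p3 at *
    generalize bb K = b at *
    have e1 : b ≤ b * n ^ 4 := Nat.le_mul_of_pos_right _ (by omega)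
    have e3 : p1 ≤ p1 * n ^ 4 := Nat.le_mul_of_pos_right _ (by omega)
    have e4 : n ^ 2 * (p2 + b) ≤ n ^ 4 * (p2 + b) := Nat.mul_le_mul_right _ hn2
    have e5 : (n.choose 2) ^ 2 * (p3 + b) ≤ n ^ 4 * (p3 + b) := Nat.mul_le_mul_right _ h8
    calc hp (Rp K n) ≤ 2 * (2 * p1 + 2 * (n ^ 2 * (p2 + b)) + b) +
          2 * ((n.choose 2) ^ 2 * (p3 + b)) + b := by
          rw [Rp]; omega
      _ ≤ _ := by nlinarith
  have hS : ∃ C : ℕ, ∀ n : ℕ, 1 ≤ n → hp (Sp K n) ≤ C * n ^ 4 := by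
    refine ⟨2 * hp (P2 K) + 2 * (hp (P3 K) + bb K) + bb K, fun n hn => ?_⟩
    have h4 := hp_add (bc0 K) (P2 K) (n • P3 K)
    have h5 := hp_nsmul (bc0 K) (P3 K) n
    have hb : ht ((bc (kg K) : D4 K) : L4 K) = bb K := rfl
    rw [hb] at h4 h5
    have hn4 : 1 ≤ n ^ 4 := Nat.one_le_pow _ _ (by omega)
    have hn2 : n ^ 2 ≤ n ^ 4 := Nat.pow_le_pow_right hn (by norm_num)
    generalize hp (P2 K) = p2 at *
    generalize hp (P3 K) = p3 at *
    generalize bb K = b at *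
    have e1 : b ≤ b * n ^ 4 := Nat.le_mul_of_pos_right _ (by omega)
    have e3 : p2 ≤ p2 * n ^ 4 := Nat.le_mul_of_pos_right _ (by omega)
    have e4 : n ^ 2 * (p3 + b) ≤ n ^ 4 * (p3 + b) := Nat.mul_le_mul_right _ hn2
    calc hp (Sp K n) ≤ 2 * p2 + 2 * (n ^ 2 * (p3 + b)) + b := by
          rw [Sp]; omega
      _ ≤ _ := by nlinarith
  obtain ⟨CR, hR⟩ := hR
  obtain ⟨CS, hS⟩ := hS
  set k := ht (kg K : L4 K) with hk
  refine ⟨(CR + k) + (CS + k) + (3 * (CR + k) + k) + (3 * (CS + k) + k), fun n hn => ?_⟩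
  have hn4 : 1 ≤ n ^ 4 := Nat.one_le_pow _ _ (by omega)
  have hRn := hR n hn
  have hSn := hS n hn
  obtain ⟨o1, o2, -⟩ := orb_pts K n
  have hnd := orb_nd K n
  set T := tau (orb K n 0) (orb K n 1) (orb K n 2) with hT
  have x1 := ht_le (kg0 K) o1
  have x2 := ht_le (kg0 K) o2
  have y1 := ht_Y_le (kg0 K) o1
  have y2 := ht_Y_le (kg0 K) o2
  rw [← hk] at x1 x2 y1 y2
  have h1 : (1 : L4 K) ∈ D0 (Fin 4) K := one_mem _
  have hT0 : (T : L4 K) ≠ 0 := fun h => hnd.tau0 (Subtype.ext h)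
  have hw : ht (orb K n 2 : L4 K) ≤ ht ((1 + orb K n 2 * T : D4 K) : L4 K) +
      ht ((1 + T : D4 K) : L4 K) := by
    have e : (orb K n 2 : L4 K) = (((1 + orb K n 2 * T : D4 K) : L4 K) - 1) /
        (((1 + T : D4 K) : L4 K) - 1) := by
      push_cast
      rw [add_sub_cancel_left, add_sub_cancel_left, mul_div_cancel_right₀ _ hT0]
    have a1 := ht_div (sub_mem (1 + orb K n 2 * T : D4 K).2 h1) (sub_mem (1 + T : D4 K).2 h1)
    have a2 := ht_sub (1 + orb K n 2 * T : D4 K).2 h1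
    have a3 := ht_sub (1 + T : D4 K).2 h1
    rw [ht_one] at a2 a3
    rw [← e] at a1
    omega
  have hsum : deg K n ≤ ht (orb K n 0 : L4 K) + ht (orb K n 1 : L4 K) + ht (orb K n 2 : L4 K) := by
    have h2 := ph_le_sum (vec_mem (orb K n))
    rw [Fin.sum_univ_four] at h2
    have e0 : ht (vec (orb K n) 0) = 0 := by
      rw [show vec (orb K n) 0 = 1 from rfl, ht_one]
    have e1 : vec (orb K n) 1 = (orb K n 0 : L4 K) := rfl
    have e2 : vec (orb K n) 2 = (orb K n 1 : L4 K) := rfl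
    have e3 : vec (orb K n) 3 = (orb K n 2 : L4 K) := rfl
    rw [e0, e1, e2, e3, zero_add] at h2
    exact h2
  have ek : k ≤ k * n ^ 4 := Nat.le_mul_of_pos_right _ (by omega)
  have fin1 : deg K n ≤ (hp (Rp K n) + k) + (hp (Sp K n) + k) + (3 * (hp (Rp K n) + k) + k) +
      (3 * (hp (Sp K n) + k) + k) := by omega
  refine fin1.trans ?_
  nlinarith

end Pool.Agent.N890.DG.Bnd
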