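import Mathlib
import Pool.Agent.N890.DG.Bnd

set_option autoImplicit false
set_option linter.unusedSectionVars false

/-! Quartic growth and its consequences. -/

namespace Pool.Agent.N890.DG.Fast

open Main Degs Bnd Filter Topology

lemma choose_sq_ge {n : ℕ} (hn : 2 ≤ n) : (n : ℝ) ^ 4 / 16 ≤ ((n.choose 2 : ℕ) : ℝ) ^ 2 := by
  have h1 : ((n.choose 2 : ℕ) : ℝ) = n * (n - 1) / 2 := Nat.cast_choose_two ℝ n
  have h2 : (2 : ℝ) ≤ n := by exact_mod_cast hn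
  have h3 : (n : ℝ) ^ 2 / 4 ≤ n * (n - 1) / 2 := by nlinarith
  rw [h1]
  calc (n : ℝ) ^ 4 / 16 = ((n : ℝ) ^ 2 / 4) ^ 2 := by ring
    _ ≤ _ := pow_le_pow_left₀ (by positivity) h3 2

theorem quartic (K : Type*) [Field K] [CharZero K] :
    Comparable (fun n => (n : ℝ) ^ 4) (fun n => (deg K n : ℝ)) := by
  obtain ⟨C, hC⟩ := lower K
  obtain ⟨D, hD⟩ := upper K
  obtain ⟨n₁, hn₁⟩ := exists_nat_gt (32 * (C : ℝ))
  refine ⟨1 / 64, D + 1, by norm_num, by positivity, max 3 n₁, fun n hn => ⟨?_, ?_⟩⟩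
  · have h3 : 3 ≤ n := (le_max_left _ _).trans hn
    have h1 : n₁ ≤ n := (le_max_right _ _).trans hn
    have h4 : ((n.choose 2 : ℕ) : ℝ) ^ 2 ≤ 2 * deg K n + C * (n : ℝ) ^ 2 := by
      exact_mod_cast hC n h3
    have h5 := choose_sq_ge (n := n) (by omega)
    have h6 : 32 * (C : ℝ) ≤ n := by
      have : (n₁ : ℝ) ≤ n := by exact_mod_cast h1
      linarith
    have h7 : (3 : ℝ) ≤ n := by exact_mod_cast h3
    have h8 : (C : ℝ) * (n : ℝ) ^ 2 ≤ (n : ℝ) ^ 4 / 32 := by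
      have h9 : (n : ℝ) ≤ (n : ℝ) ^ 2 := by nlinarith
      have h10 : 32 * (C : ℝ) ≤ (n : ℝ) ^ 2 := h6.trans h9
      have h11 : (0 : ℝ) ≤ (n : ℝ) ^ 2 := by positivity
      nlinarith [mul_le_mul_of_nonneg_right h10 h11]
    change 1 / 64 * (n : ℝ) ^ 4 ≤ (deg K n : ℝ)
    linarith
  · have h1 : 1 ≤ n := by
      have := (le_max_left 3 n₁).trans hn
      omega
    have h2 : (deg K n : ℝ) ≤ D * (n : ℝ) ^ 4 := by exact_mod_cast hD n h1
    have h3 : (0 : ℝ) ≤ (n : ℝ) ^ 4 := by positivity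
    change (deg K n : ℝ) ≤ (D + 1) * (n : ℝ) ^ 4
    linarith

/-- polynomial growth gives growth rate one -/
theorem rate_one {e : ℕ → ℕ} {k : ℕ} (h : Comparable (fun n => (n : ℝ) ^ k) (fun n => (e n : ℝ))) :
    Tendsto (fun n : ℕ => (e n : ℝ) ^ (1 / (n : ℝ))) atTop (𝓝 1) := by
  obtain ⟨c, D, hc, hD, n₀, hn⟩ := h
  have hup : Tendsto (fun n : ℕ => D ^ (1 / (n : ℝ)) * ((n : ℝ) ^ (1 / (n : ℝ))) ^ k) atTop
      (𝓝 1) := by
    have h1 : Tendsto (fun n : ℕ => D ^ (1 / (n : ℝ))) atTop (𝓝 1) := by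
      have := (tendsto_const_nhds (x := D)).rpow (tendsto_one_div_atTop_nhds_zero_nat (𝕜 := ℝ))
        (Or.inl hD.ne')
      rwa [Real.rpow_zero] at this
    have h2 : Tendsto (fun n : ℕ => (n : ℝ) ^ (1 / (n : ℝ))) atTop (𝓝 1) :=
      tendsto_rpow_div.comp tendsto_natCast_atTop_atTop
    have h3 := h1.mul (h2.pow k)
    rwa [one_pow, mul_one] at h3
  refine tendsto_of_tendsto_of_tendsto_of_le_of_le' tendsto_const_nhds hup ?_ ?_
  · filter_upwards [eventually_ge_atTop (max n₀ 1)] with n hn'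
    have h0 := (hn n ((le_max_left _ _).trans hn')).1
    have h1 : 1 ≤ n := (le_max_right _ _).trans hn'
    have h2 : (0 : ℝ) < n := by exact_mod_cast h1
    have h3 : (0 : ℝ) < (e n : ℝ) := lt_of_lt_of_le (by positivity) h0
    have h4 : (1 : ℝ) ≤ (e n : ℝ) := by
      have : 0 < e n := by exact_mod_cast h3
      exact_mod_cast this
    exact Real.one_le_rpow h4 (by positivity)
  · filter_upwards [eventually_ge_atTop (max n₀ 1)] with n hn'
    have h0 := (hn n ((le_max_left _ _).trans hn')).2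
    have h1 : 1 ≤ n := (le_max_right _ _).trans hn'
    have h2 : (0 : ℝ) < n := by exact_mod_cast h1
    calc (e n : ℝ) ^ (1 / (n : ℝ)) ≤ (D * (n : ℝ) ^ k) ^ (1 / (n : ℝ)) :=
          Real.rpow_le_rpow (by positivity) h0 (by positivity)
      _ = D ^ (1 / (n : ℝ)) * ((n : ℝ) ^ (1 / (n : ℝ))) ^ k := by
          rw [Real.mul_rpow hD.le (by positivity), ← Real.rpow_natCast, ← Real.rpow_natCast,
            ← Real.rpow_mul h2.le, ← Real.rpow_mul h2.le, mul_comm (k : ℝ)]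

theorem not_comparable {e : ℕ → ℕ} (h : Comparable (fun n => (n : ℝ) ^ 4) (fun n => (e n : ℝ)))
    {δ : ℝ} (hδ : Tendsto (fun n : ℕ => (e n : ℝ) ^ (1 / (n : ℝ))) atTop (𝓝 δ)) {l : ℕ}
    (hl : l ≤ 3) : ¬ Comparable (fun n => (n : ℝ) ^ l * δ ^ n) (fun n => (e n : ℝ)) := by
  have h1 : δ = 1 := tendsto_nhds_unique hδ (rate_one h)
  subst h1
  rintro ⟨c₁, c₂, hc₁, hc₂, n₁, hn₁⟩
  obtain ⟨c, D, hc, hD, n₀, hn₀⟩ := h
  obtain ⟨n₂, hn₂⟩ := exists_nat_gt (c₂ / c)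
  set n := max (max n₀ n₁) (max n₂ 1) with hn
  have a0 : n₀ ≤ n := (le_max_left _ _).trans (le_max_left _ _)
  have a1 : n₁ ≤ n := (le_max_right _ _).trans (le_max_left _ _)
  have a2 : n₂ ≤ n := (le_max_left _ _).trans (le_max_right _ _)
  have a3 : 1 ≤ n := (le_max_right _ _).trans (le_max_right _ _)
  have b0 := (hn₀ n a0).1
  have b1 := (hn₁ n a1).2
  simp only [one_pow, mul_one] at b1
  have b3 : (1 : ℝ) ≤ n := by exact_mod_cast a3
  have b4 : (n : ℝ) ^ l ≤ (n : ℝ) ^ 3 := pow_le_pow_right₀ b3 hl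
  have b5 : c * (n : ℝ) ^ 4 ≤ c₂ * (n : ℝ) ^ 3 :=
    b0.trans (b1.trans (mul_le_mul_of_nonneg_left b4 hc₂.le))
  have b6 : c₂ / c < n := hn₂.trans_le (by exact_mod_cast a2)
  rw [div_lt_iff₀ hc] at b6
  have b7 : (0 : ℝ) < (n : ℝ) ^ 3 := by positivity
  nlinarith

end Pool.Agent.N890.DG.Fast
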